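import Mathlib.LinearAlgebra.Matrix.Rank
import Mathlib.LinearAlgebra.Matrix.DotProduct
import Mathlib.Data.Real.Basic

/-!
# Factorizations of real matrices of a given rank
-/

set_option autoImplicit false

namespace Pool.Agent.R537.HA

open Matrix

variable {m n r : ℕ}

theorem exists_mul_of_rank (A : Matrix (Fin m) (Fin n) ℝ) (h : A.rank = r) :
    ∃ (U : Matrix (Fin m) (Fin r) ℝ) (V : Matrix (Fin r) (Fin n) ℝ), A = U * V := by
  have hf : Module.finrank ℝ (LinearMap.range A.mulVecLin) = r := h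
  let b := Module.finBasisOfFinrankEq ℝ (LinearMap.range A.mulVecLin) hf
  have hcol : ∀ j : Fin n, A.col j ∈ LinearMap.range A.mulVecLin := by
    intro j
    refine ⟨Pi.single j 1, ?_⟩
    simp
  refine ⟨Matrix.of fun i k => (b k : Fin m → ℝ) i,
    Matrix.of fun k j => b.repr ⟨A.col j, hcol j⟩ k, ?_⟩
  ext i j
  rw [Matrix.mul_apply]
  have h1 := b.sum_repr ⟨A.col j, hcol j⟩
  have h2 : ((∑ k, b.repr ⟨A.col j, hcol j⟩ k • b k : LinearMap.range A.mulVecLin) :
      Fin m → ℝ) i = A.col j i := by rw [h1]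
  simp only [Submodule.coe_sum, Submodule.coe_smul, Finset.sum_apply, Pi.smul_apply,
    smul_eq_mul] at h2
  rw [show A i j = A.col j i from rfl, ← h2]
  refine Finset.sum_congr rfl fun k _ => ?_
  simp only [Matrix.of_apply]
  ring

theorem rank_of_inv {A : Matrix (Fin m) (Fin n) ℝ} (E : Matrix (Fin r) (Fin m) ℝ)
    (F : Matrix (Fin n) (Fin r) ℝ) (h : E * A * F = 1) : r ≤ A.rank := by
  have h1 : (E * A * F).rank = r := by rw [h, Matrix.rank_one, Fintype.card_fin]
  calc r = (E * A * F).rank := h1.symm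
    _ ≤ (E * A).rank := Matrix.rank_mul_le_left _ _
    _ ≤ A.rank := Matrix.rank_mul_le_right _ _

theorem rank_mul_le_mid (U : Matrix (Fin m) (Fin r) ℝ) (V : Matrix (Fin r) (Fin n) ℝ) :
    (U * V).rank ≤ r :=
  (Matrix.rank_mul_le_left _ _).trans (Matrix.rank_le_width U)

theorem left_inv_of_rank {U : Matrix (Fin m) (Fin r) ℝ} (h : U.rank = r) :
    ∃ E : Matrix (Fin r) (Fin m) ℝ, E * U = 1 := by
  have h1 : (Uᵀ * U).rank = Fintype.card (Fin r) := by
    rw [Matrix.rank_transpose_mul_self, h, Fintype.card_fin]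
  have h2 : IsUnit (Uᵀ * U) := by
    rw [← Matrix.mulVec_surjective_iff_isUnit]
    have h4 : LinearMap.range (Uᵀ * U).mulVecLin = ⊤ := by
      refine Submodule.eq_top_of_finrank_eq ?_
      rw [Module.finrank_fintype_fun_eq_card]
      exact h1
    exact LinearMap.range_eq_top.1 h4
  have h3 : IsUnit (Uᵀ * U).det := (Matrix.isUnit_iff_isUnit_det _).1 h2
  exact ⟨(Uᵀ * U)⁻¹ * Uᵀ, by rw [Matrix.mul_assoc, Matrix.nonsing_inv_mul _ h3]⟩

theorem rank_eq_iff (A : Matrix (Fin m) (Fin n) ℝ) :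
    A.rank = r ↔ ∃ (U : Matrix (Fin m) (Fin r) ℝ) (V : Matrix (Fin r) (Fin n) ℝ)
      (E : Matrix (Fin r) (Fin m) ℝ) (F : Matrix (Fin n) (Fin r) ℝ),
      A = U * V ∧ E * U = 1 ∧ V * F = 1 := by
  constructor
  · intro h
    obtain ⟨U, V, rfl⟩ := exists_mul_of_rank A h
    have hU : U.rank = r := le_antisymm (Matrix.rank_le_width U)
      (h.symm.le.trans (Matrix.rank_mul_le_left U V))
    have hV : Vᵀ.rank = r := by
      rw [Matrix.rank_transpose]
      exact le_antisymm (Matrix.rank_le_height V)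
        (h.symm.le.trans (Matrix.rank_mul_le_right U V))
    obtain ⟨E, hE⟩ := left_inv_of_rank hU
    obtain ⟨F, hF⟩ := left_inv_of_rank hV
    refine ⟨U, V, E, Fᵀ, rfl, hE, ?_⟩
    have := congrArg Matrix.transpose hF
    rwa [Matrix.transpose_mul, Matrix.transpose_transpose, Matrix.transpose_one] at this
  · rintro ⟨U, V, E, F, rfl, hE, hF⟩
    refine le_antisymm (rank_mul_le_mid U V) (rank_of_inv E F ?_)
    rw [← Matrix.mul_assoc, hE, Matrix.one_mul, hF]

end Pool.Agent.R537.HA
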