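import Pool.Agent.R537.HA.Defs
import Pool.Agent.R537.HA.Fac
import Pool.Agent.ER.Build
import Pool.Agent.ER.Rat
import Pool.Agent.ER.Dec
import Pool.Agent.H670R2.ERMem

/-!
# The Hadamard decomposition problem belongs to `∃ℝ`
-/

set_option autoImplicit false

namespace Pool.Agent.NPC.R537HA

open Pool.Agent.NPC Pool.Agent.NPC.ER Pool.Agent.NPC.H670R2 Matrix

/-- The variable for an entry of the matrix number `o`. -/
def pt (w o i j : ℕ) : Tm := Tm.var (8 * (i * w + j) + o)

/-- The term for an entry of a product. -/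
def dotT (w o o' q i j : ℕ) : Tm :=
  sumTm ((List.range q).map fun k => Tm.mul (pt w o i k) (pt w o' k j))

/-- The product of two of the matrices is the identity matrix. -/
def idF (w o o' q p : ℕ) : List Fm :=
  (List.range p).flatMap fun i => (List.range p).map fun j =>
    Fm.eq (dotT w o o' q i j) (bif decide (i = j) then Tm.one else Tm.zero)

/-- The entries of the given matrix. -/
def entF (M : RMat) (w m n k l : ℕ) : List Fm :=
  (List.range m).flatMap fun i => (List.range n).map fun j =>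
    eqRat (Tm.mul (dotT w 0 1 k i j) (dotT w 4 5 l i j)) (M.entry i j)

/-- The number of the columns. -/
def RMat.wd (M : RMat) : ℕ := (M.getD 0 []).length

/-- The instance is a matrix and the ranks are not too large. -/
def okB (I : RMat × ℕ × ℕ) : Bool :=
  (I.1.all fun r => decide (r.length = I.1.wd)) &&
    (decide (I.2.1 ≤ I.1.length) && decide (I.2.2 ≤ I.1.length))

/-- The formula of an instance. -/
def fHd (I : RMat × ℕ × ℕ) : Fm :=
  bif okB I then conj (entF I.1 (I.1.length + I.1.wd + 1) I.1.length I.1.wd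
      (min I.2.1 I.1.length) (min I.2.2 I.1.length) ++
    (idF (I.1.length + I.1.wd + 1) 2 0 I.1.length (min I.2.1 I.1.length) ++
    (idF (I.1.length + I.1.wd + 1) 1 3 I.1.wd (min I.2.1 I.1.length) ++
    (idF (I.1.length + I.1.wd + 1) 6 4 I.1.length (min I.2.2 I.1.length) ++
    idF (I.1.length + I.1.wd + 1) 5 7 I.1.wd (min I.2.2 I.1.length)))))
  else H670R2.ff

theorem okB_iff (I : RMat × ℕ × ℕ) :
    okB I = true ↔ I.1.IsMat I.1.length I.1.wd ∧ I.2.1 ≤ I.1.length ∧ I.2.2 ≤ I.1.length := by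
  unfold okB RMat.IsMat
  simp only [Bool.and_eq_true, List.all_eq_true, decide_eq_true_eq, true_and]

theorem isMat_wd {M : RMat} {m n : ℕ} (h : M.IsMat m n) (hm : m ≠ 0) : M.wd = n := by
  unfold RMat.wd
  refine h.2 _ ?_
  rw [List.getD_eq_getElem _ _ (by rw [h.1]; omega)]
  exact List.getElem_mem _

/-- The extension of a matrix by zero. -/
noncomputable def ext0 {p q : ℕ} (A : Matrix (Fin p) (Fin q) ℝ) (i j : ℕ) : ℝ :=
  if h : i < p ∧ j < q then A ⟨i, h.1⟩ ⟨j, h.2⟩ else 0

theorem sum_map_range' (n : ℕ) (f : ℕ → ℝ) :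
    ((List.range n).map f).sum = ∑ k ∈ Finset.range n, f k := by
  induction n with
  | zero => simp
  | succ n ih => rw [List.range_succ, Finset.sum_range_succ, ← ih]; simp

theorem eval_dotT (v : ℕ → ℝ) (w o o' q i j : ℕ) : (dotT w o o' q i j).eval v =
    ∑ k ∈ Finset.range q, v (8 * (i * w + k) + o) * v (8 * (k * w + j) + o') := by
  unfold dotT
  rw [eval_sumTm, List.map_map, ← sum_map_range']
  rfl

/-- The matrix number `o` of an assignment. -/
def matV (v : ℕ → ℝ) (w o p q : ℕ) : Matrix (Fin p) (Fin q) ℝ :=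
  Matrix.of fun i j => v (8 * ((i : ℕ) * w + j) + o)

theorem eval_dotT' (v : ℕ → ℝ) (w o o' p q r : ℕ) (i : Fin p) (j : Fin r) :
    (dotT w o o' q i j).eval v = (matV v w o p q * matV v w o' q r) i j := by
  rw [eval_dotT, Matrix.mul_apply, ← Fin.sum_univ_eq_sum_range
    (fun k => v (8 * ((i : ℕ) * w + k) + o) * v (8 * (k * w + j) + o'))]
  rfl

theorem holds_idF {v : ℕ → ℝ} {w o o' q p : ℕ} : (∀ φ ∈ idF w o o' q p, φ.Holds v) ↔
    matV v w o p q * matV v w o' q p = 1 := by
  unfold idF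
  simp only [List.forall_mem_flatMap, List.forall_mem_map, List.mem_range]
  have h : ∀ i j : ℕ, (Tm.eval v (bif decide (i = j) then Tm.one else Tm.zero)) =
      if i = j then 1 else 0 := by
    intro i j
    by_cases hij : i = j <;> simp [hij, Tm.eval]
  simp only [Fm.Holds, h]
  constructor
  · intro h1
    ext i j
    rw [← eval_dotT', h1 i i.2 j j.2, Matrix.one_apply]
    simp only [Fin.ext_iff]
  · intro h1 i hi j hj
    have h2 := eval_dotT' v w o o' p q p ⟨i, hi⟩ ⟨j, hj⟩
    rw [h1, Matrix.one_apply] at h2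
    simpa only [Fin.mk.injEq] using h2

theorem holds_entF {v : ℕ → ℝ} {M : RMat} {w m n k l : ℕ} :
    (∀ φ ∈ entF M w m n k l, φ.Holds v) ↔ ∀ (i : Fin m) (j : Fin n),
      ((M.entry i j : ℚ) : ℝ) = (matV v w 0 m k * matV v w 1 k n) i j *
        (matV v w 4 m l * matV v w 5 l n) i j := by
  unfold entF
  simp only [List.forall_mem_flatMap, List.forall_mem_map, List.mem_range, holds_eqRat, Tm.eval]
  constructor
  · intro h i j
    rw [← eval_dotT', ← eval_dotT', h i i.2 j j.2]
  · intro h i hi j hj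
    have h1 := h ⟨i, hi⟩ ⟨j, hj⟩
    rw [← eval_dotT', ← eval_dotT'] at h1
    exact h1.symm

theorem dm_aux {n i j : ℕ} (hj : j < n) : (i * n + j) / n = i ∧ (i * n + j) % n = j := by
  constructor
  · rw [mul_comm, Nat.mul_add_div (by omega), Nat.div_eq_of_lt hj, add_zero]
  · rw [mul_comm, Nat.mul_add_mod, Nat.mod_eq_of_lt hj]

/-- The assignment given by eight families. -/
def asgOf (w : ℕ) (F : ℕ → ℕ → ℕ → ℝ) (z : ℕ) : ℝ := F (z % 8) (z / 8 / w) (z / 8 % w)

theorem asgOf_eq {w : ℕ} (F : ℕ → ℕ → ℕ → ℝ) {o i j : ℕ} (ho : o < 8) (hj : j < w) :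
    asgOf w F (8 * (i * w + j) + o) = F o i j := by
  unfold asgOf
  have e1 : (8 * (i * w + j) + o) % 8 = o := by omega
  have e2 : (8 * (i * w + j) + o) / 8 = i * w + j := by omega
  rw [e1, e2, (dm_aux hj).1, (dm_aux hj).2]

theorem matV_asgOf {w p q o : ℕ} (F : ℕ → ℕ → ℕ → ℝ) (ho : o < 8) (hq : q ≤ w)
    (A : Matrix (Fin p) (Fin q) ℝ) (hF : F o = ext0 A) : matV (asgOf w F) w o p q = A := by
  ext i j
  unfold matV
  rw [Matrix.of_apply, asgOf_eq F ho (by omega), hF]
  unfold ext0
  rw [dif_pos ⟨i.2, j.2⟩]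

theorem hd_iff_etr (I : RMat × ℕ × ℕ) : HadamardDecomposition I ↔ ETR (fHd I) := by
  obtain ⟨M, k, l⟩ := I
  unfold fHd
  by_cases hs : okB (M, k, l) = true
  · rw [hs, cond_true]
    obtain ⟨h1, h2, h3⟩ := (okB_iff _).1 hs
    simp only at h1 h2 h3
    simp only [min_eq_left h2, min_eq_left h3]
    set m := M.length with hm
    set n := M.wd with hn
    set w := m + n + 1 with hw
    unfold ETR
    simp_rw [holds_conj, List.forall_mem_append, holds_entF, holds_idF]
    constructor
    · rintro ⟨m', n', hM, A, B, hA, hB, hAB⟩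
      obtain rfl : m' = m := hM.1.symm
      simp only at hA hB hAB hM
      have key : ∃ (A' B' : Matrix (Fin m) (Fin n) ℝ), A'.rank = k ∧ B'.rank = l ∧
          ∀ (i : Fin m) (j : Fin n), ((M.entry i j : ℚ) : ℝ) = A' i j * B' i j := by
        by_cases hm0 : m = 0
        · have hk0 : k = 0 := by omega
          have hl0 : l = 0 := by omega
          refine ⟨0, 0, ?_, ?_, fun i => absurd i.2 (by omega)⟩
          · rw [Matrix.rank_zero, hk0]
          · rw [Matrix.rank_zero, hl0]
        · obtain rfl : n = n' := isMat_wd hM hm0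
          exact ⟨A, B, hA, hB, hAB⟩
      obtain ⟨A', B', hA', hB', hAB'⟩ := key
      obtain ⟨UA, VA, EA, FA, rfl, a1, a2⟩ := (R537.HA.rank_eq_iff A').1 hA'
      obtain ⟨UB, VB, EB, FB, rfl, b1, b2⟩ := (R537.HA.rank_eq_iff B').1 hB'
      let F : ℕ → ℕ → ℕ → ℝ := fun o => if o = 0 then ext0 UA else if o = 1 then ext0 VA
        else if o = 2 then ext0 EA else if o = 3 then ext0 FA else if o = 4 then ext0 UB
        else if o = 5 then ext0 VB else if o = 6 then ext0 EB else ext0 FB
      have e0 : matV (asgOf w F) w 0 m k = UA :=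
        matV_asgOf F (by norm_num) (by omega) _ rfl
      have e1 : matV (asgOf w F) w 1 k n = VA :=
        matV_asgOf F (by norm_num) (by omega) _ rfl
      have e2 : matV (asgOf w F) w 2 k m = EA :=
        matV_asgOf F (by norm_num) (by omega) _ rfl
      have e3 : matV (asgOf w F) w 3 n k = FA :=
        matV_asgOf F (by norm_num) (by omega) _ rfl
      have e4 : matV (asgOf w F) w 4 m l = UB :=
        matV_asgOf F (by norm_num) (by omega) _ rfl
      have e5 : matV (asgOf w F) w 5 l n = VB :=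
        matV_asgOf F (by norm_num) (by omega) _ rfl
      have e6 : matV (asgOf w F) w 6 l m = EB :=
        matV_asgOf F (by norm_num) (by omega) _ rfl
      have e7 : matV (asgOf w F) w 7 n l = FB :=
        matV_asgOf F (by norm_num) (by omega) _ rfl
      refine ⟨asgOf w F, ?_⟩
      rw [e0, e1, e2, e3, e4, e5, e6, e7]
      exact ⟨hAB', a1, a2, b1, b2⟩
    · rintro ⟨v, h4, h5, h6, h7, h8⟩
      refine ⟨m, n, h1, matV v w 0 m k * matV v w 1 k n, matV v w 4 m l * matV v w 5 l n,
        ?_, ?_, h4⟩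
      · exact (R537.HA.rank_eq_iff _).2 ⟨_, _, _, _, rfl, h5, h6⟩
      · exact (R537.HA.rank_eq_iff _).2 ⟨_, _, _, _, rfl, h7, h8⟩
  · have h' : okB (M, k, l) = false := by simpa using hs
    rw [h', cond_false]
    constructor
    · rintro ⟨m, n, hM, A, B, hA, hB, -⟩
      exfalso
      apply hs
      rw [okB_iff]
      simp only at hA hB hM ⊢
      have hm : M.length = m := hM.1
      refine ⟨?_, ?_, ?_⟩
      · by_cases hm0 : m = 0
        · refine ⟨rfl, fun r hr => ?_⟩
          have : M = [] := List.length_eq_zero_iff.1 (by omega)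
          rw [this] at hr
          simp at hr
        · rw [hm, isMat_wd hM hm0]
          exact hM
      · rw [hm, ← hA]
        exact Matrix.rank_le_height A
      · rw [hm, ← hB]
        exact Matrix.rank_le_height B
    · intro h2
      exact absurd h2 not_etr_ff

section

variable {α : Type} [TEnc α] {w i j q p m n k l : α → ℕ} {M : α → RMat}

theorem poly_pt (o : ℕ) (hw : Poly w) (hi : Poly i) (hj : Poly j) :
    Poly (fun a => pt (w a) o (i a) (j a)) :=
  poly_tvar (Poly.add (Poly.mul (Poly.const 8) (Poly.add (Poly.mul hi hw) hj)) (Poly.const o))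

theorem poly_dotT (o o' : ℕ) (hw : Poly w) (hq : UPoly q) (hi : Poly i) (hj : Poly j) :
    Poly (fun a => dotT (w a) o o' (q a) (i a) (j a)) := by
  refine poly_sumTm (Poly.map (F := fun a k => Tm.mul (pt (w a) o (i a) k) (pt (w a) o' k (j a)))
    hq.range ?_)
  have p1 : Poly (fun r : α × ℕ => r.1) := Poly.fst Poly.id
  have p2 : Poly (fun r : α × ℕ => r.2) := Poly.snd Poly.id
  exact poly_tmul (poly_pt o (hw.comp p1) (hi.comp p1) p2)
    (poly_pt o' (hw.comp p1) p2 (hj.comp p1))

theorem poly_idF (o o' : ℕ) (hw : Poly w) (hq : UPoly q) (hp : UPoly p) :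
    Poly (fun a => idF (w a) o o' (q a) (p a)) := by
  refine Poly.flatMap (F := fun a i => (List.range (p a)).map fun j =>
    Fm.eq (dotT (w a) o o' (q a) i j) (bif decide (i = j) then Tm.one else Tm.zero)) hp.range ?_
  refine Poly.map (F := fun (r : α × ℕ) j =>
    Fm.eq (dotT (w r.1) o o' (q r.1) r.2 j) (bif decide (r.2 = j) then Tm.one else Tm.zero))
    (hp.range.comp (Poly.fst Poly.id)) ?_
  have q1 : Poly (fun q : (α × ℕ) × ℕ => q.1.1) := Poly.fst (Poly.fst Poly.id)
  have q2 : Poly (fun q : (α × ℕ) × ℕ => q.1.2) := Poly.snd (Poly.fst Poly.id)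
  have q3 : Poly (fun q : (α × ℕ) × ℕ => q.2) := Poly.snd Poly.id
  exact poly_eq (poly_dotT o o' (hw.comp q1) (hq.comp q1) q2 q3)
    (Poly.cond (Poly.decide_eq q2 q3) (Poly.const _) (Poly.const _))

theorem poly_entry' (hM : Poly M) (hi : Poly i) (hj : Poly j) :
    Poly (fun a => (M a).entry (i a) (j a)) :=
  Poly.getD (Poly.getD hM hi (Poly.const [])) hj (Poly.const (0 : ℚ))

theorem poly_entF (hM : Poly M) (hw : Poly w) (hm : UPoly m) (hn : UPoly n) (hk : UPoly k)
    (hl : UPoly l) : Poly (fun a => entF (M a) (w a) (m a) (n a) (k a) (l a)) := by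
  refine Poly.flatMap (F := fun a i => (List.range (n a)).map fun j =>
    eqRat (Tm.mul (dotT (w a) 0 1 (k a) i j) (dotT (w a) 4 5 (l a) i j)) ((M a).entry i j))
    hm.range ?_
  refine Poly.map (F := fun (r : α × ℕ) j =>
    eqRat (Tm.mul (dotT (w r.1) 0 1 (k r.1) r.2 j) (dotT (w r.1) 4 5 (l r.1) r.2 j))
      ((M r.1).entry r.2 j)) (hn.range.comp (Poly.fst Poly.id)) ?_
  have q1 : Poly (fun q : (α × ℕ) × ℕ => q.1.1) := Poly.fst (Poly.fst Poly.id)
  have q2 : Poly (fun q : (α × ℕ) × ℕ => q.1.2) := Poly.snd (Poly.fst Poly.id)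
  have q3 : Poly (fun q : (α × ℕ) × ℕ => q.2) := Poly.snd Poly.id
  exact poly_eqRat (poly_tmul (poly_dotT 0 1 (hw.comp q1) (hk.comp q1) q2 q3)
    (poly_dotT 4 5 (hw.comp q1) (hl.comp q1) q2 q3)) (poly_entry' (hM.comp q1) q2 q3)

theorem poly_wd (hM : Poly M) : Poly (fun a => (M a).getD 0 []) :=
  Poly.getD hM (Poly.const 0) (Poly.const [])

theorem upoly_wd (hM : Poly M) : UPoly (fun a => (M a).wd) := UPoly.length (poly_wd hM)

end

theorem poly_okB : Poly okB := by
  have h1 : Poly (fun I : RMat × ℕ × ℕ => I.1) := Poly.fst Poly.id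
  have h2 : Poly (fun I : RMat × ℕ × ℕ => I.2.1) := Poly.fst (Poly.snd Poly.id)
  have h3 : Poly (fun I : RMat × ℕ × ℕ => I.2.2) := Poly.snd (Poly.snd Poly.id)
  refine Poly.and ?_ (Poly.and (Poly.decide_le h2 (Poly.length h1))
    (Poly.decide_le h3 (Poly.length h1)))
  exact Poly.all (p := fun (I : RMat × ℕ × ℕ) (r : List ℚ) => decide (r.length = I.1.wd)) h1
    (Poly.decide_eq (Poly.length (Poly.snd Poly.id)) ((upoly_wd h1).toPoly.comp
      (Poly.fst Poly.id)))

theorem poly_fHd : Poly fHd := by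
  have h1 : Poly (fun I : RMat × ℕ × ℕ => I.1) := Poly.fst Poly.id
  have h2 : Poly (fun I : RMat × ℕ × ℕ => I.2.1) := Poly.fst (Poly.snd Poly.id)
  have h3 : Poly (fun I : RMat × ℕ × ℕ => I.2.2) := Poly.snd (Poly.snd Poly.id)
  have hm : UPoly (fun I : RMat × ℕ × ℕ => I.1.length) := UPoly.length h1
  have hn : UPoly (fun I : RMat × ℕ × ℕ => I.1.wd) := upoly_wd h1
  have hw : Poly (fun I : RMat × ℕ × ℕ => I.1.length + I.1.wd + 1) :=
    Poly.add (Poly.add hm.toPoly hn.toPoly) (Poly.const 1)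
  have hk : UPoly (fun I : RMat × ℕ × ℕ => min I.2.1 I.1.length) :=
    UPoly.of_le (Poly.min h2 hm.toPoly) hm fun a => min_le_right _ _
  have hl : UPoly (fun I : RMat × ℕ × ℕ => min I.2.2 I.1.length) :=
    UPoly.of_le (Poly.min h3 hm.toPoly) hm fun a => min_le_right _ _
  exact Poly.cond poly_okB (poly_conj (Poly.append (poly_entF h1 hw hm hn hk hl)
    (Poly.append (poly_idF 2 0 hw hm hk) (Poly.append (poly_idF 1 3 hw hn hk)
      (Poly.append (poly_idF 6 4 hw hm hl) (poly_idF 5 7 hw hn hl)))))) (Poly.const _)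

/-- The Hadamard decomposition problem belongs to `∃ℝ`. -/
theorem hd_mem : InER (lang HadamardDecomposition) := ER.InER.of_poly poly_fHd hd_iff_etr

theorem hd_mem4 : InER (lang fun I : RMat × ℕ => HadamardDecomposition (I.1, 4, I.2)) :=
  ER.InER.of_poly (φ := fun I : RMat × ℕ => fHd (I.1, 4, I.2))
    (poly_fHd.comp (Poly.pair (Poly.fst Poly.id) (Poly.pair (Poly.const 4) (Poly.snd Poly.id))))
    fun I => hd_iff_etr (I.1, 4, I.2)

end Pool.Agent.NPC.R537HA
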