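import Pool.Agent.R537.HA.Corr

/-!
# From solutions to decompositions
-/

set_option autoImplicit false

namespace Pool.Agent.NPC.R537HA

open Pool.Agent.NPC Pool.Agent.NPC.ER Matrix

variable {S : List ER.Con} {x : ℕ → ℝ}

theorem unitV_inj {s t s' t' : ℕ} (h : unitV s t = unitV s' t') : s = s' ∧ t = t' := by
  simpa [unitV] using h

theorem rows_f' (hx : SysHolds x S) {u : Vec} (hu : u ∈ rowsOf S) :
    ∃ y z, RowOk (kOf S) (Xf x S) (Df x S) u y z ∧ ∀ s t, u = unitV s t →
      y = (fun r => if r = s then 1 else 0) ∧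
      z = (fun j => if j = 0 then Xf x S s t else if j = t then Df x S s t else 0) := by
  by_cases h : ∃ s t, s < 4 ∧ t < kOf S ∧ u = unitV s t
  · obtain ⟨s, t, hs, ht, rfl⟩ := h
    refine ⟨_, _, unit_row hs ht, fun s' t' h => ?_⟩
    obtain ⟨rfl, rfl⟩ := unitV_inj h
    exact ⟨rfl, rfl⟩
  · obtain ⟨y, z, hyz⟩ := rows_f hx hu
    refine ⟨y, z, hyz, fun s t h' => absurd ?_ h⟩
    have h1 := rows_inR hu ((s, t), 1) (by rw [h']; simp [unitV])
    exact ⟨s, t, h1.1, h1.2, h'⟩

theorem cols_f' {v : Vec} (hv : v ∈ colsOf S) :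
    ∃ y z, ColOk (kOf S) (Xf x S) (Df x S) v y z ∧ ∀ s t, v = unitV s t →
      y = (fun r => if r = s then 1 else 0) ∧
      z = (fun j => if t = 0 then (if j = 0 then 1 else - (Xf x S s j) / Df x S s j)
        else if j = t then 1 / Df x S s t else 0) := by
  by_cases h : ∃ s t, s < 4 ∧ t < kOf S ∧ v = unitV s t
  · obtain ⟨s, t, hs, ht, rfl⟩ := h
    refine ⟨_, _, unit_col hs (Xf_zero s) (fun i _ _ => Df_ne s i) ht, fun s' t' h => ?_⟩
    obtain ⟨rfl, rfl⟩ := unitV_inj h
    exact ⟨rfl, rfl⟩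
  · obtain ⟨y, z, hyz⟩ := cols_f (x := x) hv
    refine ⟨y, z, hyz, fun s t h' => absurd ?_ h⟩
    have h1 := cols_inR hv ((s, t), 1) (by rw [h']; simp [unitV])
    exact ⟨s, t, h1.1, h1.2, h'⟩

/-- A matrix with an identity submatrix. -/
theorem rank_ge {m n r : ℕ} (A : Matrix (Fin m) (Fin n) ℝ) (f : Fin r → Fin m)
    (g : Fin r → Fin n) (h : ∀ i j, A (f i) (g j) = if i = j then 1 else 0) : r ≤ A.rank := by
  refine R537.HA.rank_of_inv (Matrix.of fun i k => if k = f i then 1 else 0)
    (Matrix.of fun k j => if k = g j then 1 else 0) ?_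
  ext i j
  rw [Matrix.mul_apply, Matrix.one_apply, ← h i j]
  rw [Finset.sum_eq_single (g j)]
  · rw [Matrix.of_apply, if_pos rfl, mul_one, Matrix.mul_apply, Finset.sum_eq_single (f i)]
    · rw [Matrix.of_apply, if_pos rfl, one_mul]
    · intro k _ hk
      rw [Matrix.of_apply, if_neg hk, zero_mul]
    · simp
  · intro k _ hk
    rw [Matrix.of_apply, if_neg hk, mul_zero]
  · simp

theorem decomp_of_sat (h : Sat S) : HadamardDecomposition (inst S) := by
  classical
  obtain ⟨x, hx⟩ := h
  have hk4 : 4 < kOf S := kOf_pos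
  choose ry rz hrow using fun i : Fin (rowsOf S).length =>
    rows_f' hx (u := (rowsOf S)[i]) (List.getElem_mem _)
  choose cy cz hcol using fun j : Fin (colsOf S).length =>
    cols_f' (x := x) (v := (colsOf S)[j]) (List.getElem_mem _)
  let UA : Matrix (Fin (rowsOf S).length) (Fin 4) ℝ := Matrix.of fun i s => ry i s
  let VA : Matrix (Fin 4) (Fin (colsOf S).length) ℝ := Matrix.of fun s j => cy j s
  let UB : Matrix (Fin (rowsOf S).length) (Fin (kOf S)) ℝ := Matrix.of fun i t => rz i t
  let VB : Matrix (Fin (kOf S)) (Fin (colsOf S).length) ℝ := Matrix.of fun t j => cz j t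
  have hri : ∀ s t, s < 4 → t < kOf S → ∃ i : Fin (rowsOf S).length, (rowsOf S)[i] = unitV s t := by
    intro s t hs ht
    obtain ⟨i, hi, h⟩ := List.getElem_of_mem (unit_mem_rows (S := S) hs ht)
    exact ⟨⟨i, hi⟩, h⟩
  have hci : ∀ s t, s < 4 → t < kOf S → ∃ i : Fin (colsOf S).length, (colsOf S)[i] = unitV s t := by
    intro s t hs ht
    obtain ⟨i, hi, h⟩ := List.getElem_of_mem (unit_mem_cols (S := S) hs ht)
    exact ⟨⟨i, hi⟩, h⟩
  have hUV : ∀ i j, (UA * VA) i j = ∑ s ∈ Finset.range 4, ry i s * cy j s := by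
    intro i j
    rw [Matrix.mul_apply, ← Fin.sum_univ_eq_sum_range (fun s => ry i s * cy j s)]
    rfl
  have hUV' : ∀ i j, (UB * VB) i j = ∑ t ∈ Finset.range (kOf S), rz i t * cz j t := by
    intro i j
    rw [Matrix.mul_apply, ← Fin.sum_univ_eq_sum_range (fun s => rz i s * cz j s)]
    rfl
  refine ⟨(rowsOf S).length, (colsOf S).length, isMat_matOf, UA * VA, UB * VB, ?_, ?_, ?_⟩
  · change (UA * VA).rank = 4
    refine le_antisymm (R537.HA.rank_mul_le_mid _ _) ?_
    choose f hf using fun s : Fin 4 => hri s 0 s.2 (by omega)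
    choose g hg using fun s : Fin 4 => hci s 0 s.2 (by omega)
    refine rank_ge _ f g fun s s' => ?_
    rw [hUV, ((hrow (f s)).2 s 0 (hf s)).1, ((hcol (g s')).2 s' 0 (hg s')).1]
    by_cases hss : s = s'
    · subst hss
      rw [if_pos rfl, Finset.sum_eq_single (s : ℕ)]
      · simp
      · intro r _ hr; simp [hr]
      · intro h; exact absurd (Finset.mem_range.2 s.2) h
    · rw [if_neg hss]
      refine Finset.sum_eq_zero fun r _ => ?_
      by_cases h : r = s
      · have : (s : ℕ) ≠ s' := fun h' => hss (Fin.ext h')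
        subst h
        simp [this]
      · simp [h]
  · change (UB * VB).rank = kOf S
    refine le_antisymm (R537.HA.rank_mul_le_mid _ _) ?_
    choose f hf using fun t : Fin (kOf S) => hri 0 t (by norm_num) t.2
    choose g hg using fun t : Fin (kOf S) => hci 0 t (by norm_num) t.2
    refine rank_ge _ f g fun t t' => ?_
    rw [hUV', ((hrow (f t)).2 0 t (hf t)).2, ((hcol (g t')).2 0 t' (hg t')).2]
    have e1 : ∀ j : ℕ, (if j = 0 then Xf x S 0 t else if j = t then Df x S 0 t else 0) =
        if j = (t : ℕ) then (1 : ℝ) else 0 := by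
      intro j
      by_cases hj : j = 0
      · subst hj
        rw [if_pos rfl]
        by_cases ht : (0 : ℕ) = t
        · rw [if_pos ht, ← ht, Xf_zero]
        · rw [if_neg ht, Xf_low (by omega)]
      · rw [if_neg hj, Df_low (by norm_num)]
    have e2 : ∀ j : ℕ, (if (t' : ℕ) = 0 then (if j = 0 then 1 else - (Xf x S 0 j) / Df x S 0 j)
        else if j = t' then 1 / Df x S 0 t' else 0) = if j = (t' : ℕ) then (1 : ℝ) else 0 := by
      intro j
      by_cases ht : (t' : ℕ) = 0
      · rw [if_pos ht, ht]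
        by_cases hj : j = 0
        · rw [if_pos hj, if_pos hj]
        · rw [if_neg hj, if_neg hj, Xf_low (by omega), neg_zero, zero_div]
      · rw [if_neg ht, Df_low (by norm_num), div_one]
    simp only [e1, e2]
    by_cases htt : t = t'
    · subst htt
      rw [if_pos rfl, Finset.sum_eq_single (t : ℕ)]
      · simp
      · intro r _ hr; simp [hr]
      · intro h; exact absurd (Finset.mem_range.2 t.2) h
    · rw [if_neg htt]
      refine Finset.sum_eq_zero fun r _ => ?_
      by_cases h : r = t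
      · have : (t : ℕ) ≠ t' := fun h' => htt (Fin.ext h')
        subst h
        simp [this]
      · simp [h]
  · intro i j
    change ((((matOf S).entry i j : ℚ)) : ℝ) = _
    have hi : (rowsOf S)[i] ∈ rowsOf S := List.getElem_mem _
    have hj : (colsOf S)[j] ∈ colsOf S := List.getElem_mem _
    rw [entry_matOf, Rat.cast_intCast, idot_eq _ (cols_inR hj),
      pairing (by omega) (rows_inR hi) (hrow i).1 (hcol j).1, hUV, hUV']

/-- Correctness of the reduction. -/
theorem sat_iff_decomp (S : List ER.Con) : Sat S ↔ HadamardDecomposition (inst S) :=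
  ⟨decomp_of_sat, sat_of_decomp⟩

end Pool.Agent.NPC.R537HA
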