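import Pool.Agent.R537.HA.Fac
import Mathlib.Tactic.LinearCombination

/-!
# Rigidity of tight Hadamard decompositions

If a matrix contains the identity matrix of size `4 k` and is the Hadamard product of a matrix of
rank `4` and a matrix of rank `k > 4`, then (in the presence of sums of the unit rows) the rows and
columns are described by four `k × k` matrices.
-/

set_option autoImplicit false

namespace Pool.Agent.R537.HA

open Matrix

/-- Two vectors are parallel. -/
def Par {n : ℕ} (a b : Fin n → ℝ) : Prop := ∀ i j, a i * b j = a j * b i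

theorem Par.symm {n : ℕ} {a b : Fin n → ℝ} (h : Par a b) : Par b a := fun i j => by
  have := h i j
  linarith

theorem exists_ne {n : ℕ} {a : Fin n → ℝ} (h : a ≠ 0) : ∃ i, a i ≠ 0 := by
  by_contra hc
  push Not at hc
  exact h (funext hc)

theorem Par.exists_smul {n : ℕ} {a b : Fin n → ℝ} (h : Par a b) (hb : b ≠ 0) :
    ∃ c : ℝ, a = c • b := by
  obtain ⟨i, hi⟩ := exists_ne hb
  refine ⟨a i / b i, funext fun j => ?_⟩
  have := h i j
  rw [Pi.smul_apply, smul_eq_mul, div_mul_eq_mul_div, eq_div_iff hi]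
  linarith

theorem Par.trans {n : ℕ} {a b c : Fin n → ℝ} (h : Par a b) (h' : Par b c) (hb : b ≠ 0) :
    Par a c := by
  obtain ⟨x, rfl⟩ := h.exists_smul hb
  intro i j
  have := h' i j
  simp only [Pi.smul_apply, smul_eq_mul]
  linear_combination x * this

theorem par_of_sum {m n : ℕ} {a a' c : Fin m → ℝ} {b b' d : Fin n → ℝ}
    (h : ∀ i j, c i * d j = a i * b j + a' i * b' j) : Par a a' ∨ Par b b' := by
  by_contra hc
  rw [not_or] at hc
  obtain ⟨h1, h2⟩ := hc
  unfold Par at h1 h2
  push Not at h1 h2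
  obtain ⟨i, i', h1⟩ := h1
  obtain ⟨j, j', h2⟩ := h2
  have h3 : (a i * a' i' - a i' * a' i) * (b j * b' j' - b j' * b' j) = 0 := by
    linear_combination (-(c i' * d j')) * h i j - (a i * b j + a' i * b' j) * h i' j' +
      (c i' * d j) * h i j' + (a i * b j' + a' i * b' j') * h i' j
  rcases mul_eq_zero.1 h3 with h4 | h4
  · exact h1 (sub_eq_zero.1 h4)
  · exact h2 (sub_eq_zero.1 h4)

section

variable {k : ℕ} {R C : Type} {U : R → Fin 4 → Fin k → ℝ} {V : C → Fin 4 → Fin k → ℝ}
  {a : R → Fin 4 → ℝ} {b : R → Fin k → ℝ} {α : C → Fin 4 → ℝ} {β : C → Fin k → ℝ}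
  {ru : Fin 4 → Fin k → R} {cu : Fin 4 → Fin k → C} {rp : Fin 4 → Fin k → Fin k → R}

theorem sum_single_mul (s₀ : Fin 4) (t₀ : Fin k) (f : Fin 4 → Fin k → ℝ) :
    ∑ s, ∑ t, (Pi.single s₀ (Pi.single t₀ (1 : ℝ)) : Fin 4 → Fin k → ℝ) s t * f s t =
      f s₀ t₀ := by
  rw [Finset.sum_eq_single s₀, Finset.sum_eq_single t₀]
  · simp
  · intro t _ ht; simp [Pi.single_eq_of_ne ht]
  · simp
  · intro s _ hs; simp [Pi.single_eq_of_ne hs]
  · simp

theorem sum_mul_single (s₀ : Fin 4) (t₀ : Fin k) (f : Fin 4 → Fin k → ℝ) :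
    ∑ s, ∑ t, f s t * (Pi.single s₀ (Pi.single t₀ (1 : ℝ)) : Fin 4 → Fin k → ℝ) s t =
      f s₀ t₀ := by
  rw [← sum_single_mul s₀ t₀ f]
  exact Finset.sum_congr rfl fun s _ => Finset.sum_congr rfl fun t _ => mul_comm _ _

theorem core (hk : 4 < k)
    (H : ∀ r c, ∑ s, ∑ t, U r s t * V c s t = (∑ i, a r i * α c i) * (∑ j, b r j * β c j))
    (hru : ∀ s t, U (ru s t) = Pi.single s (Pi.single t 1))
    (hcu : ∀ s t, V (cu s t) = Pi.single s (Pi.single t 1))
    (hrp : ∀ s t t', U (rp s t t') = Pi.single s (Pi.single t 1 + Pi.single t' 1)) :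
    ∃ P : Fin 4 → Matrix (Fin k) (Fin k) ℝ, P 0 = 1 ∧
      (∀ r, ∃ (x : Fin 4 → ℝ) (y : Fin k → ℝ), ∀ s, P s *ᵥ U r s = x s • y) ∧
      (∀ c, ∃ (x : Fin 4 → ℝ) (y : Fin k → ℝ), ∀ s, V c s = x s • ((P s)ᵀ *ᵥ y)) := by
  classical
  -- the two square matrices
  let K : Matrix (Fin 4 × Fin k) (Fin 4 × Fin k) ℝ :=
    Matrix.of fun p q => α (cu p.1 p.2) q.1 * β (cu p.1 p.2) q.2
  let L : Matrix (Fin 4 × Fin k) (Fin 4 × Fin k) ℝ :=
    Matrix.of fun q p => a (ru p.1 p.2) q.1 * b (ru p.1 p.2) q.2
  have prodsum : ∀ (u : Fin 4 → ℝ) (v : Fin k → ℝ) (u' : Fin 4 → ℝ) (v' : Fin k → ℝ),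
      ∑ q : Fin 4 × Fin k, (u q.1 * v q.2) * (u' q.1 * v' q.2) =
        (∑ i, u' i * u i) * (∑ j, v' j * v j) := by
    intro u v u' v'
    rw [Fintype.sum_prod_type, Finset.sum_mul]
    refine Finset.sum_congr rfl fun i _ => ?_
    rw [Finset.mul_sum]
    exact Finset.sum_congr rfl fun j _ => by ring
  have hKW : ∀ r, K *ᵥ (fun q : Fin 4 × Fin k => a r q.1 * b r q.2) =
      fun p => U r p.1 p.2 := by
    intro r
    funext p
    have h1 := H r (cu p.1 p.2)
    rw [hcu, sum_mul_single] at h1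
    rw [h1, ← prodsum]
    rfl
  have hKL : K * L = 1 := by
    ext p p'
    have h1 := congrFun (hKW (ru p'.1 p'.2)) p
    rw [hru] at h1
    have h2 : (K * L) p p' =
        (K *ᵥ (fun q : Fin 4 × Fin k => a (ru p'.1 p'.2) q.1 * b (ru p'.1 p'.2) q.2)) p := rfl
    rw [h2, h1, Matrix.one_apply]
    by_cases hpp : p = p'
    · subst hpp; simp
    · rw [if_neg hpp]
      by_cases hs : p.1 = p'.1
      · have ht : p.2 ≠ p'.2 := fun h => hpp (Prod.ext hs h)
        rw [hs, Pi.single_eq_same, Pi.single_eq_of_ne ht]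
      · rw [Pi.single_eq_of_ne hs]; rfl
  have hLK : L * K = 1 := mul_eq_one_comm.1 hKL
  have hspan : ∀ w : Fin 4 × Fin k → ℝ, L *ᵥ (K *ᵥ w) = w := by
    intro w
    rw [Matrix.mulVec_mulVec, hLK, Matrix.one_mulVec]
  have hind : ∀ c : Fin 4 × Fin k → ℝ, L *ᵥ c = 0 → c = 0 := by
    intro c hc
    have : K *ᵥ (L *ᵥ c) = c := by rw [Matrix.mulVec_mulVec, hKL, Matrix.one_mulVec]
    rw [← this, hc, Matrix.mulVec_zero]
  have star : ∀ r i j, a r i * b r j =
      ∑ s, ∑ t, U r s t * (a (ru s t) i * b (ru s t) j) := by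
    intro r i j
    have h1 := congrFun (hspan (fun q => a r q.1 * b r q.2)) (i, j)
    rw [hKW] at h1
    simp only at h1
    rw [← h1]
    change ∑ p : Fin 4 × Fin k, L (i, j) p * U r p.1 p.2 = _
    rw [Fintype.sum_prod_type]
    exact Finset.sum_congr rfl fun s _ => Finset.sum_congr rfl fun t _ => mul_comm _ _
  have hne : ∀ s t, a (ru s t) ≠ 0 ∧ b (ru s t) ≠ 0 := by
    intro s t
    have h1 := congrFun (hKW (ru s t)) (s, t)
    rw [hru] at h1
    simp only [Pi.single_eq_same] at h1
    constructor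
    · intro h
      have h2 : (fun q : Fin 4 × Fin k => a (ru s t) q.1 * b (ru s t) q.2) = 0 := by
        funext q; rw [h]; simp
      rw [h2, Matrix.mulVec_zero] at h1
      simp at h1
    · intro h
      have h2 : (fun q : Fin 4 × Fin k => a (ru s t) q.1 * b (ru s t) q.2) = 0 := by
        funext q; rw [h]; simp
      rw [h2, Matrix.mulVec_zero] at h1
      simp at h1
  have hpair : ∀ s t t', Par (a (ru s t)) (a (ru s t')) ∨ Par (b (ru s t)) (b (ru s t')) := by
    intro s t t'
    refine par_of_sum (c := a (rp s t t')) (d := b (rp s t t')) fun i j => ?_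
    rw [star (rp s t t') i j, hrp]
    have e : (Pi.single s (Pi.single t (1 : ℝ) + Pi.single t' 1) : Fin 4 → Fin k → ℝ) =
        Pi.single s (Pi.single t 1) + Pi.single s (Pi.single t' 1) := by
      rw [← Pi.single_add]
    rw [e]
    simp only [Pi.add_apply, add_mul, Finset.sum_add_distrib]
    rw [sum_single_mul, sum_single_mul]
  -- the first factors are parallel in each block
  have hblock : ∀ s t t', Par (a (ru s t)) (a (ru s t')) := by
    intro s t t'
    by_contra hnp
    have hb : ∀ t'', Par (b (ru s t'')) (b (ru s t)) := by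
      intro t''
      rcases hpair s t'' t with h1 | h1
      · rcases hpair s t'' t' with h2 | h2
        · exact absurd ((h1.symm).trans h2 (hne s t'').1) hnp
        · rcases hpair s t t' with h3 | h3
          · exact absurd h3 hnp
          · exact h2.trans h3.symm (hne s t').2
      · exact h1
    choose μ hμ using fun t'' => (hb t'').exists_smul (hne s t).2
    let Φ : (Fin k → ℝ) →ₗ[ℝ] (Fin 4 → ℝ) :=
      (Matrix.of fun i t'' => μ t'' * a (ru s t'') i : Matrix (Fin 4) (Fin k) ℝ).mulVecLin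
    have hker : LinearMap.ker Φ ≠ ⊥ := by
      apply LinearMap.ker_ne_bot_of_finrank_lt
      rw [Module.finrank_fintype_fun_eq_card, Module.finrank_fintype_fun_eq_card,
        Fintype.card_fin, Fintype.card_fin]
      exact hk
    obtain ⟨c, hc, hc0⟩ := (Submodule.ne_bot_iff _).1 hker
    rw [LinearMap.mem_ker] at hc
    apply hc0
    have h5 : L *ᵥ (fun p : Fin 4 × Fin k => if p.1 = s then c p.2 else 0) = 0 := by
      funext q
      obtain ⟨i, j⟩ := q
      have h6 := congrFun hc i
      change ∑ t'', (μ t'' * a (ru s t'') i) * c t'' = 0 at h6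
      change ∑ p : Fin 4 × Fin k, L (i, j) p * (if p.1 = s then c p.2 else 0) = 0
      rw [Fintype.sum_prod_type, Finset.sum_eq_single s]
      · simp only [if_true]
        calc ∑ t'', L (i, j) (s, t'') * c t''
            = b (ru s t) j * ∑ t'', (μ t'' * a (ru s t'') i) * c t'' := by
              rw [Finset.mul_sum]
              refine Finset.sum_congr rfl fun t'' _ => ?_
              change a (ru s t'') i * b (ru s t'') j * c t'' = _
              rw [hμ t'', Pi.smul_apply, smul_eq_mul]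
              ring
          _ = 0 := by rw [h6, mul_zero]
      · intro s' _ hs'
        simp [hs']
      · simp
    have h7 := hind _ h5
    funext t''
    have := congrFun h7 (s, t'')
    simpa using this
  have t0 : Fin k := ⟨0, by omega⟩
  choose lam hlam using fun s t => (hblock s t t0).exists_smul (hne s t0).1
  let x : Fin 4 → Fin 4 → ℝ := fun s => a (ru s t0)
  let g : Fin 4 → Fin k → Fin k → ℝ := fun s t => lam s t • b (ru s t)
  have hxg : ∀ s t i j, a (ru s t) i * b (ru s t) j = x s i * g s t j := by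
    intro s t i j
    have h1 := congrFun (hlam s t) i
    rw [Pi.smul_apply, smul_eq_mul] at h1
    rw [h1]
    simp only [x, g, Pi.smul_apply, smul_eq_mul]
    ring
  let X : Matrix (Fin 4) (Fin 4) ℝ := Matrix.of fun i s => x s i
  let G : Fin 4 → Matrix (Fin k) (Fin k) ℝ := fun s => Matrix.of fun j t => g s t j
  have hL : ∀ i j s t, L (i, j) (s, t) = x s i * g s t j := fun i j s t => hxg s t i j
  have star2 : ∀ r i j, a r i * b r j = ∑ s, X i s * (G s *ᵥ U r s) j := by
    intro r i j
    rw [star r i j]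
    refine Finset.sum_congr rfl fun s _ => ?_
    change _ = x s i * ∑ t, g s t j * U r s t
    rw [Finset.mul_sum]
    refine Finset.sum_congr rfl fun t _ => ?_
    rw [hxg]
    ring
  have hX : IsUnit X.det := by
    rw [isUnit_iff_ne_zero]
    intro h0
    obtain ⟨y, hy0, hy⟩ := Matrix.exists_vecMul_eq_zero_iff.2 h0
    apply hy0
    have h1 : ∀ (w : Fin 4 × Fin k → ℝ) (j : Fin k), ∑ i, y i * w (i, j) = 0 := by
      intro w j
      have h2 : ∀ i, w (i, j) = ∑ s, ∑ t, (x s i * g s t j) * (K *ᵥ w) (s, t) := by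
        intro i
        have h3 := congrFun (hspan w) (i, j)
        rw [← h3]
        change ∑ p : Fin 4 × Fin k, L (i, j) p * (K *ᵥ w) p = _
        rw [Fintype.sum_prod_type]
        exact Finset.sum_congr rfl fun s _ => Finset.sum_congr rfl fun t _ => by rw [hL]
      calc ∑ i, y i * w (i, j)
          = ∑ i, ∑ s, ∑ t, y i * ((x s i * g s t j) * (K *ᵥ w) (s, t)) := by
            refine Finset.sum_congr rfl fun i _ => ?_
            rw [h2 i, Finset.mul_sum]
            exact Finset.sum_congr rfl fun s _ => by rw [Finset.mul_sum]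
        _ = ∑ s, ∑ t, (g s t j * (K *ᵥ w) (s, t)) * ∑ i, y i * x s i := by
            rw [Finset.sum_comm]
            refine Finset.sum_congr rfl fun s _ => ?_
            rw [Finset.sum_comm]
            refine Finset.sum_congr rfl fun t _ => ?_
            rw [Finset.mul_sum]
            exact Finset.sum_congr rfl fun i _ => by ring
        _ = 0 := by
            refine Finset.sum_eq_zero fun s _ => Finset.sum_eq_zero fun t _ => ?_
            have h4 := congrFun hy s
            change ∑ i, y i * x s i = 0 at h4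
            rw [h4, mul_zero]
    have h5 := h1 (fun q => y q.1) t0
    simp only at h5
    funext i
    have h6 := (Finset.sum_eq_zero_iff_of_nonneg (fun i _ => mul_self_nonneg (y i))).1 h5 i
      (Finset.mem_univ i)
    simpa using h6
  have hG : IsUnit (G 0).det := by
    rw [isUnit_iff_ne_zero]
    intro h0
    obtain ⟨c, hc0, hc⟩ := Matrix.exists_mulVec_eq_zero_iff.2 h0
    apply hc0
    have h5 : L *ᵥ (fun p : Fin 4 × Fin k => if p.1 = 0 then c p.2 else 0) = 0 := by
      funext q
      obtain ⟨i, j⟩ := q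
      have h6 := congrFun hc j
      change ∑ t, g 0 t j * c t = 0 at h6
      change ∑ p : Fin 4 × Fin k, L (i, j) p * (if p.1 = 0 then c p.2 else 0) = 0
      rw [Fintype.sum_prod_type, Finset.sum_eq_single 0]
      · simp only [if_true]
        calc ∑ t, L (i, j) (0, t) * c t = x 0 i * ∑ t, g 0 t j * c t := by
              rw [Finset.mul_sum]
              refine Finset.sum_congr rfl fun t _ => ?_
              rw [hL]
              ring
          _ = 0 := by rw [h6, mul_zero]
      · intro s' _ hs'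
        simp [hs']
      · simp
    have h7 := hind _ h5
    funext t
    have := congrFun h7 (0, t)
    simpa using this
  refine ⟨fun s => (G 0)⁻¹ * G s, Matrix.nonsing_inv_mul _ hG, ?_, ?_⟩
  · intro r
    refine ⟨X⁻¹ *ᵥ a r, (G 0)⁻¹ *ᵥ b r, fun s => ?_⟩
    have h1 : G s *ᵥ U r s = (X⁻¹ *ᵥ a r) s • b r := by
      funext j
      have h2 : b r j • a r = X *ᵥ (fun s => (G s *ᵥ U r s) j) := by
        funext i
        rw [Pi.smul_apply, smul_eq_mul, mul_comm, star2 r i j]
        rfl
      have h3 : X⁻¹ *ᵥ (b r j • a r) = fun s => (G s *ᵥ U r s) j := by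
        rw [h2, Matrix.mulVec_mulVec, Matrix.nonsing_inv_mul _ hX, Matrix.one_mulVec]
      have h4 := congrFun h3 s
      rw [Matrix.mulVec_smul, Pi.smul_apply, smul_eq_mul] at h4
      rw [← h4, Pi.smul_apply, smul_eq_mul, mul_comm]
    rw [← Matrix.mulVec_mulVec, h1, Matrix.mulVec_smul]
  · intro c
    refine ⟨fun s => ∑ i, x s i * α c i, (G 0)ᵀ *ᵥ β c, fun s => ?_⟩
    funext t
    have h1 := H (ru s t) c
    rw [hru, sum_single_mul] at h1
    have h2 : (∑ i, a (ru s t) i * α c i) * (∑ j, b (ru s t) j * β c j) =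
        (∑ i, x s i * α c i) * (∑ j, g s t j * β c j) := by
      rw [Finset.sum_mul_sum, Finset.sum_mul_sum]
      refine Finset.sum_congr rfl fun i _ => Finset.sum_congr rfl fun j _ => ?_
      have := hxg s t i j
      linear_combination (α c i * β c j) * this
    have h3 : ((G 0)⁻¹ * G s)ᵀ *ᵥ ((G 0)ᵀ *ᵥ β c) = (G s)ᵀ *ᵥ β c := by
      rw [Matrix.mulVec_mulVec, ← Matrix.transpose_mul, ← Matrix.mul_assoc,
        Matrix.mul_nonsing_inv _ hG, Matrix.one_mul]
    change V c s t = (∑ i, x s i * α c i) * (((G 0)⁻¹ * G s)ᵀ *ᵥ ((G 0)ᵀ *ᵥ β c)) t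
    rw [h1, h2, h3]
    rfl

end

end Pool.Agent.R537.HA
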