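import Pool.Agent.ER.Defs
import Mathlib.LinearAlgebra.Matrix.Rank

/-!
# The Hadamard decomposition problem
-/

namespace Pool.Agent.NPC.R537HA

/-- A rational matrix, given by the list of its rows. -/
abbrev RMat : Type := List (List ℚ)

/-- The list of lists is an `m × n` matrix. -/
def RMat.IsMat (M : RMat) (m n : ℕ) : Prop := M.length = m ∧ ∀ r ∈ M, r.length = n

/-- The entry of a matrix at row `i` and column `j` (counted from `0`). -/
def RMat.entry (M : RMat) (i j : ℕ) : ℚ := (M.getD i []).getD j 0

/-- The real `m × n` matrix `M` is the Hadamard product of a matrix of rank `k₁` and a matrix of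
rank `k₂`. -/
def Decomp {m n : ℕ} (M : Matrix (Fin m) (Fin n) ℝ) (k₁ k₂ : ℕ) : Prop :=
  ∃ A B : Matrix (Fin m) (Fin n) ℝ, A.rank = k₁ ∧ B.rank = k₂ ∧ ∀ i j, M i j = A i j * B i j

/-- The Hadamard decomposition problem: the instance consists of an `m × n` matrix with rational
entries and two natural numbers `k₁`, `k₂`, and the matrix is the Hadamard product of a real matrix
of rank `k₁` and a real matrix of rank `k₂`. -/
def HadamardDecomposition (I : RMat × ℕ × ℕ) : Prop :=
  ∃ m n : ℕ, I.1.IsMat m n ∧
    Decomp (Matrix.of fun (i : Fin m) (j : Fin n) => ((I.1.entry i j : ℚ) : ℝ)) I.2.1 I.2.2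

end Pool.Agent.NPC.R537HA
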