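import Pool.Agent.R537.HA.Inst
import Pool.Agent.R537.HA.Core
import Pool.Agent.R537.HA.Defs

/-!
# Correctness of the reduction
-/

set_option autoImplicit false

namespace Pool.Agent.NPC.R537HA

open Pool.Agent.NPC Pool.Agent.NPC.ER Matrix

/-- The inner product of sparse vectors. -/
def idot (u v : Vec) : ℤ :=
  (v.map fun q => (u.map fun p => if p.1 = q.1 then p.2 * q.2 else 0).sum).sum

/-- The matrix of the instance. -/
def matOf (S : List ER.Con) : RMat :=
  (rowsOf S).map fun u => (colsOf S).map fun v => ((idot u v : ℤ) : ℚ)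

/-- The instance of a system. -/
def inst (S : List ER.Con) : RMat × ℕ × ℕ := (matOf S, 4, kOf S)

/-- All positions of the vector are in range. -/
def InR (k : ℕ) (u : Vec) : Prop := ∀ p ∈ u, p.1.1 < 4 ∧ p.1.2 < k

theorem cf_nil (s t : ℕ) : cf [] s t = 0 := by simp [cf]

theorem cf_cons (q : (ℕ × ℕ) × ℤ) (u : Vec) (s t : ℕ) :
    cf (q :: u) s t = (if q.1 = (s, t) then (q.2 : ℝ) else 0) + cf u s t := by simp [cf]

theorem cf_sum {k : ℕ} {u : Vec} (hu : InR k u) (f : ℕ → ℝ) (s : ℕ) :
    ∑ t ∈ Finset.range k, cf u s t * f t =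
      (u.map fun p => if p.1.1 = s then (p.2 : ℝ) * f p.1.2 else 0).sum := by
  induction u with
  | nil => simp [cf_nil]
  | cons q u ih =>
    have hq := (hu q (List.mem_cons_self ..)).2
    rw [List.map_cons, List.sum_cons, ← ih fun p hp => hu p (List.mem_cons_of_mem _ hp)]
    simp only [cf_cons, add_mul, Finset.sum_add_distrib]
    congr 1
    rw [Finset.sum_eq_single q.1.2]
    · by_cases h : q.1.1 = s
      · have : q.1 = (s, q.1.2) := Prod.ext h rfl
        rw [if_pos this, if_pos h]
      · have : q.1 ≠ (s, q.1.2) := fun h' => h (congrArg Prod.fst h')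
        rw [if_neg this, if_neg h, zero_mul]
    · intro t _ ht
      have : q.1 ≠ (s, t) := fun h' => ht (congrArg Prod.snd h').symm
      rw [if_neg this, zero_mul]
    · intro h
      exact absurd (Finset.mem_range.2 hq) h

theorem idot_inner (u : Vec) (q : (ℕ × ℕ) × ℤ) :
    (((u.map fun p => if p.1 = q.1 then p.2 * q.2 else 0).sum : ℤ) : ℝ) =
      cf u q.1.1 q.1.2 * (q.2 : ℝ) := by
  induction u with
  | nil => simp [cf_nil]
  | cons p u ih =>
    rw [List.map_cons, List.sum_cons, Int.cast_add, ih, cf_cons, add_mul]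
    congr 1
    by_cases h : p.1 = q.1
    · rw [if_pos h, if_pos h, Int.cast_mul]
    · have : ¬ p.1 = (q.1.1, q.1.2) := h
      rw [if_neg h, if_neg this, zero_mul, Int.cast_zero]

theorem idot_eq {k : ℕ} (u : Vec) {v : Vec} (hv : InR k v) :
    (idot u v : ℝ) = ∑ s ∈ Finset.range 4, ∑ t ∈ Finset.range k, cf u s t * cf v s t := by
  induction v with
  | nil => simp [idot, cf_nil]
  | cons q v ih =>
    have hq := hv q (List.mem_cons_self ..)
    have ih' := ih fun p hp => hv p (List.mem_cons_of_mem _ hp)
    have e : idot u (q :: v) =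
        (u.map fun p => if p.1 = q.1 then p.2 * q.2 else 0).sum + idot u v := by
      simp [idot]
    rw [e, Int.cast_add, ih', idot_inner]
    simp only [cf_cons, mul_add, Finset.sum_add_distrib]
    congr 1
    rw [Finset.sum_eq_single q.1.1, Finset.sum_eq_single q.1.2]
    · rw [if_pos rfl]
    · intro t _ ht
      have : q.1 ≠ (q.1.1, t) := fun h' => ht (congrArg Prod.snd h').symm
      rw [if_neg this, mul_zero]
    · intro h
      exact absurd (Finset.mem_range.2 hq.2) h
    · intro s _ hs
      refine Finset.sum_eq_zero fun t _ => ?_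
      have : q.1 ≠ (s, t) := fun h' => hs (congrArg Prod.fst h').symm
      rw [if_neg this, mul_zero]
    · intro h
      exact absurd (Finset.mem_range.2 hq.1) h

theorem w0_eq {k : ℕ} {u : Vec} (hu : InR k u) (X : ℕ → ℕ → ℝ) (s : ℕ) :
    ∑ t ∈ Finset.range k, cf u s t * X s t = w0 X u s := by
  rw [cf_sum hu (X s) s]
  unfold w0
  congr 1

theorem pairing {k : ℕ} {X D : ℕ → ℕ → ℝ} {u v : Vec} {x y x' y' : ℕ → ℝ}
    (hk : 0 < k) (hu : InR k u) (hr : RowOk k X D u x y) (hc : ColOk k X D v x' y') :
    ∑ s ∈ Finset.range 4, ∑ t ∈ Finset.range k, cf u s t * cf v s t =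
      (∑ s ∈ Finset.range 4, x s * x' s) * (∑ t ∈ Finset.range k, y t * y' t) := by
  obtain ⟨m, rfl⟩ : ∃ m, k = m + 1 := ⟨k - 1, by omega⟩
  rw [Finset.sum_mul]
  refine Finset.sum_congr rfl fun s hs => ?_
  have hs' := Finset.mem_range.1 hs
  obtain ⟨r0, r1⟩ := hr s hs'
  obtain ⟨c0, c1⟩ := hc s hs'
  have h1 := w0_eq hu X s
  rw [Finset.sum_range_succ'] at h1 ⊢
  rw [Finset.sum_range_succ' (fun t => y t * y' t), c0]
  have h2 : ∑ t ∈ Finset.range m, cf u s (t + 1) * cf v s (t + 1) =
      x' s * (y' 0 * ∑ t ∈ Finset.range m, cf u s (t + 1) * X s (t + 1)) +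
        x' s * x s * ∑ t ∈ Finset.range m, y (t + 1) * y' (t + 1) := by
    rw [Finset.mul_sum, Finset.mul_sum, Finset.mul_sum, ← Finset.sum_add_distrib]
    refine Finset.sum_congr rfl fun t ht => ?_
    have ht' := Finset.mem_range.1 ht
    have e1 := r1 (t + 1) (by omega) (by omega)
    have e2 := c1 (t + 1) (by omega) (by omega)
    rw [e2]
    linear_combination (x' s * y' (t + 1)) * e1
  rw [h2]
  rw [r0] at h1
  linear_combination (x' s * y' 0) * h1

/-! ### Positions -/

section

variable {S : List ER.Con}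

theorem rows_inR {u : Vec} (hu : u ∈ rowsOf S) : InR (kOf S) u := by
  have hb : base S + 4 ≤ kOf S := by unfold kOf; omega
  have hb3 : 3 ≤ base S := by unfold base; omega
  have hix : ∀ v, ixOf (vsOf S) v < kOf S := fun v => by
    have := ix_base (S := S) v
    omega
  rcases rows_cases hu with ⟨s, t, hs, ht, rfl⟩ | ⟨s, t, t', hs, ht, ht', rfl⟩ | rfl |
    ⟨i, hi, h⟩ | ⟨c, hc, h⟩
  · intro p hp
    simp only [unitV, List.mem_cons, List.not_mem_nil, or_false] at hp
    subst hp; exact ⟨hs, ht⟩
  · intro p hp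
    simp only [pairV, List.mem_cons, List.not_mem_nil, or_false] at hp
    rcases hp with rfl | rfl
    · exact ⟨hs, ht⟩
    · exact ⟨hs, ht'⟩
  · intro p hp
    simp only [twoV, List.mem_cons, List.not_mem_nil, or_false] at hp
    rcases hp with rfl | rfl <;> constructor <;> simp <;> omega
  · have hi2 : i + 2 < kOf S := by
      have : base S = (vsOf S).length + 3 := rfl
      omega
    simp only [varR, List.mem_cons, List.not_mem_nil, or_false] at h
    intro p hp
    rcases h with rfl | rfl | rfl <;>
      simp only [twoV, normV, List.mem_cons, List.not_mem_nil, or_false] at hp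
    · rcases hp with rfl | rfl <;> constructor <;> simp <;> omega
    · rcases hp with rfl | rfl | rfl | rfl <;> constructor <;> simp <;> omega
    · rcases hp with rfl | rfl <;> constructor <;> simp <;> omega
  · obtain ⟨h3, h4⟩ := g_bounds hc
    have hadd : ∀ i j l, i < kOf S → j < kOf S → l < kOf S → InR (kOf S) (addV i j l) := by
      intro i j l hi hj hl p hp
      simp only [addV, List.mem_cons, List.not_mem_nil, or_false] at hp
      rcases hp with rfl | rfl | rfl | rfl | rfl | rfl | rfl | rfl <;> constructor <;> simp <;>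
        omega
    have hgate : ∀ l a b, l < kOf S → a < kOf S → b < kOf S → ∀ z ∈ gateR l a b,
        InR (kOf S) z := by
      intro l a b hl ha hb z hz p hp
      simp only [gateR, List.mem_cons, List.not_mem_nil, or_false] at hz
      rcases hz with rfl | rfl | rfl | rfl | rfl <;>
        simp only [twoV, invV, mixV, List.mem_cons, List.not_mem_nil, or_false] at hp
      · rcases hp with rfl | rfl <;> constructor <;> simp <;> omega
      · rcases hp with rfl | rfl <;> constructor <;> simp <;> omega
      · rcases hp with rfl | rfl <;> constructor <;> simp <;> omega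
      · rcases hp with rfl | rfl | rfl <;> constructor <;> simp <;> omega
      · rcases hp with rfl | rfl | rfl | rfl <;> constructor <;> simp <;> omega
    cases c with
    | one v =>
      simp only [conR, List.mem_cons, List.not_mem_nil, or_false] at h
      subst h
      have := hix v
      intro p hp
      simp only [oneV, List.mem_cons, List.not_mem_nil, or_false] at hp
      rcases hp with rfl | rfl | rfl <;> constructor <;> simp <;> omega
    | add u' v w =>
      simp only [conR, List.mem_cons, List.not_mem_nil, or_false] at h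
      subst h
      exact hadd _ _ _ (hix _) (hix _) (hix _)
    | mul u' v w =>
      simp only [conR, List.mem_append, List.mem_cons, List.not_mem_nil, or_false] at h
      rcases h with h | h | rfl | rfl
      · exact hgate _ _ _ (hix _) (by omega) (by omega) _ h
      · exact hgate _ _ _ (hix _) (by omega) (by omega) _ h
      · exact hadd _ _ _ (hix _) (by omega) (by omega)
      · exact hadd _ _ _ (hix _) (by omega) (by omega)

theorem cols_inR {u : Vec} (hu : u ∈ colsOf S) : InR (kOf S) u := by
  have heq : ∀ s i j, s < 4 → i < kOf S → j < kOf S → InR (kOf S) (eqV s i j) := by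
    intro s i j hs hi hj p hp
    simp only [eqV, List.mem_cons, List.not_mem_nil, or_false] at hp
    rcases hp with rfl | rfl | rfl | rfl <;> constructor <;> simp <;> omega
  rcases cols_cases hu with ⟨s, t, hs, ht, rfl⟩ | ⟨i, hi, hik, rfl⟩ | ⟨i, hi, hik, rfl⟩ |
    ⟨c, hc, h⟩
  · intro p hp
    simp only [unitV, List.mem_cons, List.not_mem_nil, or_false] at hp
    subst hp; exact ⟨hs, ht⟩
  · intro p hp
    simp only [shapeV, List.mem_cons, List.not_mem_nil, or_false] at hp
    rcases hp with rfl | rfl | rfl | rfl <;> constructor <;> simp <;> omega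
  · exact heq _ _ _ (by norm_num) (by omega) hik
  · obtain ⟨h3, h4⟩ := g_bounds hc
    cases c with
    | one v => simp [conK] at h
    | add u v w => simp [conK] at h
    | mul u v w =>
      simp only [conK, List.mem_cons, List.not_mem_nil, or_false] at h
      rcases h with rfl | rfl
      · exact heq _ _ _ (by norm_num) (by omega) (by omega)
      · exact heq _ _ _ (by norm_num) (by omega) (by omega)

/-! ### The entries of the matrix -/

theorem isMat_matOf : (matOf S).IsMat (rowsOf S).length (colsOf S).length := by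
  constructor
  · simp [matOf]
  · intro r hr
    simp only [matOf, List.mem_map] at hr
    obtain ⟨u, -, rfl⟩ := hr
    simp

theorem entry_matOf (i : Fin (rowsOf S).length) (j : Fin (colsOf S).length) :
    (matOf S).entry i j = ((idot (rowsOf S)[i] (colsOf S)[j] : ℤ) : ℚ) := by
  have h1 : (matOf S).getD i [] =
      (colsOf S).map fun v => ((idot (rowsOf S)[i] v : ℤ) : ℚ) := by
    unfold matOf
    rw [List.getD_eq_getElem _ _ (by simp), List.getElem_map]
    rfl
  unfold RMat.entry
  rw [h1, List.getD_eq_getElem _ _ (by simp), List.getElem_map]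
  rfl

theorem kOf_pos : 4 < kOf S := by unfold kOf base; omega

/-! ### From decompositions to solutions -/

theorem sat_of_decomp (h : HadamardDecomposition (inst S)) : Sat S := by
  classical
  obtain ⟨m, n, hM, A, B, hA, hB, hAB⟩ := h
  have hM' := isMat_matOf (S := S)
  obtain rfl : m = (rowsOf S).length := hM.1.symm.trans hM'.1
  have hu0 : unitV 0 0 ∈ rowsOf S := unit_mem_rows (by norm_num) (by have := kOf_pos (S := S); omega)
  obtain rfl : n = (colsOf S).length := by
    have hmem : ((colsOf S).map fun v => ((idot (unitV 0 0) v : ℤ) : ℚ)) ∈ matOf S :=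
      List.mem_map.2 ⟨_, hu0, rfl⟩
    rw [← hM.2 _ hmem, ← hM'.2 _ hmem]
  clear hM hM'
  set k := kOf S with hk
  have hk4 : 4 < k := kOf_pos
  obtain ⟨UA, VA, rfl⟩ := R537.HA.exists_mul_of_rank A hA
  obtain ⟨UB, VB, rfl⟩ := R537.HA.exists_mul_of_rank B hB
  let ri : {u // u ∈ rowsOf S} → Fin (rowsOf S).length := fun u =>
    ⟨(rowsOf S).idxOf u.1, List.idxOf_lt_length_iff.2 u.2⟩
  let ci : {v // v ∈ colsOf S} → Fin (colsOf S).length := fun v =>
    ⟨(colsOf S).idxOf v.1, List.idxOf_lt_length_iff.2 v.2⟩
  have hri : ∀ u, (rowsOf S)[ri u] = u.1 := fun u =>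
    List.getElem_idxOf (List.idxOf_lt_length_iff.2 u.2)
  have hci : ∀ v, (colsOf S)[ci v] = v.1 := fun v =>
    List.getElem_idxOf (List.idxOf_lt_length_iff.2 v.2)
  have H : ∀ (u : {u // u ∈ rowsOf S}) (v : {v // v ∈ colsOf S}),
      ∑ s : Fin 4, ∑ t : Fin k, cf u.1 s t * cf v.1 s t =
        (∑ i, UA (ri u) i * VA i (ci v)) * (∑ j, UB (ri u) j * VB j (ci v)) := by
    intro u v
    have h1 := hAB (ri u) (ci v)
    change ((((matOf S).entry (ri u) (ci v) : ℚ)) : ℝ) = _ at h1
    rw [entry_matOf, hri, hci, Rat.cast_intCast, idot_eq _ (cols_inR v.2)] at h1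
    rw [Matrix.mul_apply, Matrix.mul_apply] at h1
    rw [← h1]
    rw [← Fin.sum_univ_eq_sum_range (fun s => ∑ t ∈ Finset.range (kOf S),
      cf u.1 s t * cf v.1 s t)]
    refine Finset.sum_congr rfl fun s _ => ?_
    rw [← Fin.sum_univ_eq_sum_range (fun t => cf u.1 s t * cf v.1 s t)]
  have hunit : ∀ (s : Fin 4) (t : Fin k), (fun (s' : Fin 4) (t' : Fin k) =>
      cf (unitV s t) s' t') = Pi.single s (Pi.single t 1) := by
    intro s t
    funext s' t'
    by_cases hs : s' = s
    · subst hs
      rw [Pi.single_eq_same]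
      by_cases ht : t' = t
      · subst ht
        rw [Pi.single_eq_same]
        simp [cf, unitV]
      · rw [Pi.single_eq_of_ne ht]
        have : (t : ℕ) ≠ t' := fun h => ht (Fin.ext h).symm
        simp [cf, unitV, this]
    · rw [Pi.single_eq_of_ne hs]
      have : (s : ℕ) ≠ s' := fun h => hs (Fin.ext h).symm
      simp [cf, unitV, this]
  have hpairV : ∀ (s : Fin 4) (t t' : Fin k), (fun (s₁ : Fin 4) (t₁ : Fin k) =>
      cf (pairV s t t') s₁ t₁) = Pi.single s (Pi.single t 1 + Pi.single t' 1) := by
    intro s t t'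
    have e : (Pi.single s (Pi.single t (1 : ℝ) + Pi.single t' 1) : Fin 4 → Fin k → ℝ) =
        Pi.single s (Pi.single t 1) + Pi.single s (Pi.single t' 1) := by
      rw [← Pi.single_add]
    rw [e, ← hunit, ← hunit]
    funext s₁ t₁
    simp [cf, unitV, pairV]
  obtain ⟨P, hP0, hrow, hcol⟩ := R537.HA.core (k := k) (R := {u // u ∈ rowsOf S})
    (C := {v // v ∈ colsOf S})
    (U := fun u s t => cf u.1 s t) (V := fun v s t => cf v.1 s t)
    (a := fun u => UA (ri u)) (b := fun u => UB (ri u)) (α := fun v i => VA i (ci v))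
    (β := fun v j => VB j (ci v))
    (ru := fun s t => ⟨unitV s t, unit_mem_rows s.2 t.2⟩)
    (cu := fun s t => ⟨unitV s t, unit_mem_cols s.2 t.2⟩)
    (rp := fun s t t' => ⟨pairV s t t', pair_mem_rows s.2 t.2 t'.2⟩)
    hk4 H hunit hunit hpairV
  -- the index zero
  let z0 : Fin k := ⟨0, by omega⟩
  -- the shape
  have hshape : ∀ i : Fin k, 1 ≤ (i : ℕ) → ∀ s : Fin 4, P s i i ≠ 0 ∧
      ∀ t : Fin k, t ≠ i → P s i t = 0 := by
    intro i hi s
    obtain ⟨x, y, hxy⟩ := hcol ⟨shapeV i, shape_mem_cols hi i.2⟩
    have hcfs : ∀ (s' : Fin 4) (t : Fin k), cf (shapeV i) s' t = if t = i then 1 else 0 := by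
      intro s' t
      by_cases ht : t = i
      · subst ht
        rw [if_pos rfl]
        fin_cases s' <;> simp [cf, shapeV]
      · have : (i : ℕ) ≠ t := fun h => ht (Fin.ext h).symm
        rw [if_neg ht]
        fin_cases s' <;> simp [cf, shapeV, this]
    have h0 : ∀ t, (if t = i then (1 : ℝ) else 0) = x 0 * y t := by
      intro t
      have := congrFun (hxy 0) t
      rw [hP0, Matrix.transpose_one, Matrix.one_mulVec, Pi.smul_apply, smul_eq_mul] at this
      rw [← this]
      exact (hcfs 0 t).symm
    have hx0 : x 0 ≠ 0 := by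
      intro h; have := h0 i; rw [h, if_pos rfl] at this; simp at this
    have hyt : ∀ t, t ≠ i → y t = 0 := by
      intro t ht
      have := h0 t
      rw [if_neg ht] at this
      rcases mul_eq_zero.1 this.symm with h | h
      · exact absurd h hx0
      · exact h
    have hyi : y i ≠ 0 := by
      intro h; have := h0 i; rw [h, if_pos rfl] at this; simp at this
    have hs : ∀ t, (if t = i then (1 : ℝ) else 0) = x s * (P s i t * y i) := by
      intro t
      have h1 := congrFun (hxy s) t
      rw [Pi.smul_apply, smul_eq_mul] at h1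
      have h2 : ((P s)ᵀ *ᵥ y) t = P s i t * y i := by
        change ∑ j, P s j t * y j = _
        rw [Finset.sum_eq_single i]
        · intro j _ hj
          rw [hyt j hj, mul_zero]
        · simp
      rw [h2] at h1
      rw [← h1]
      exact (hcfs s t).symm
    have hi1 := hs i
    rw [if_pos rfl] at hi1
    have hxs : x s ≠ 0 := by
      intro h; rw [h] at hi1; simp at hi1
    refine ⟨?_, fun t ht => ?_⟩
    · intro h; rw [h] at hi1; simp at hi1
    · have := hs t
      rw [if_neg ht] at this
      rcases mul_eq_zero.1 this.symm with h | h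
      · exact absurd h hxs
      · rcases mul_eq_zero.1 h with h | h
        · exact h
        · exact absurd h hyi
  let X : ℕ → ℕ → ℝ := fun s t => if h : s < 4 ∧ t < k then P ⟨s, h.1⟩ z0 ⟨t, h.2⟩ else 0
  let D : ℕ → ℕ → ℝ := fun s t => if h : s < 4 ∧ t < k then P ⟨s, h.1⟩ ⟨t, h.2⟩ ⟨t, h.2⟩ else 0
  have hX : ∀ (s : Fin 4) (t : Fin k), X s t = P s z0 t := fun s t => by
    simp only [X]; rw [dif_pos ⟨s.2, t.2⟩]
  have hD : ∀ (s : Fin 4) (t : Fin k), D s t = P s t t := fun s t => by
    simp only [D]; rw [dif_pos ⟨s.2, t.2⟩]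
  have hG : Good k X D := by
    refine ⟨?_, ?_, ?_, ?_⟩
    · have := hX 0 z0
      rw [hP0, Matrix.one_apply_eq] at this
      exact this
    · intro i hi hik
      have := hX 0 ⟨i, hik⟩
      rw [hP0, Matrix.one_apply_ne (by
        intro h
        have h' : (0 : ℕ) = i := congrArg Fin.val h
        omega)] at this
      exact this
    · intro i hi hik
      have := hD 0 ⟨i, hik⟩
      rw [hP0, Matrix.one_apply_eq] at this
      exact this
    · intro s hs i hi hik
      have := hD ⟨s, hs⟩ ⟨i, hik⟩
      change D s i = _ at this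
      rw [this]
      exact (hshape ⟨i, hik⟩ hi ⟨s, hs⟩).1
  refine sat_of_frames hG ?_ ?_
  · intro u hu
    obtain ⟨x, y, hxy⟩ := hrow ⟨u, hu⟩
    refine ⟨fun s => if h : s < 4 then x ⟨s, h⟩ else 0, fun t => if h : t < k then y ⟨t, h⟩ else 0,
      ?_⟩
    intro s hs
    have h1 : ∀ j : Fin k, ∑ t : Fin k, P ⟨s, hs⟩ j t * cf u s t = x ⟨s, hs⟩ * y j := by
      intro j
      have := congrFun (hxy ⟨s, hs⟩) j
      rw [Pi.smul_apply, smul_eq_mul] at this
      exact this
    constructor
    · beta_reduce
      rw [← w0_eq (rows_inR hu) X s,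
        ← Fin.sum_univ_eq_sum_range (fun t => cf u s t * X s t), dif_pos hs,
        dif_pos (show 0 < k by omega)]
      rw [← h1 z0]
      refine Finset.sum_congr rfl fun t _ => ?_
      have := hX ⟨s, hs⟩ t
      change X s t = _ at this
      rw [this, mul_comm]
    · intro i hi hik
      beta_reduce
      rw [dif_pos hs, dif_pos hik, ← h1 ⟨i, hik⟩, Finset.sum_eq_single ⟨i, hik⟩]
      · have := hD ⟨s, hs⟩ ⟨i, hik⟩
        change D s i = _ at this
        rw [this]
      · intro t _ ht
        rw [(hshape ⟨i, hik⟩ hi ⟨s, hs⟩).2 t ht, zero_mul]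
      · simp
  · intro v hv
    obtain ⟨x, y, hxy⟩ := hcol ⟨v, hv⟩
    refine ⟨fun s => if h : s < 4 then x ⟨s, h⟩ else 0, fun t => if h : t < k then y ⟨t, h⟩ else 0,
      ?_⟩
    intro s hs
    have h1 : ∀ t : Fin k, cf v s t = x ⟨s, hs⟩ * ∑ j : Fin k, P ⟨s, hs⟩ j t * y j := by
      intro t
      have := congrFun (hxy ⟨s, hs⟩) t
      rw [Pi.smul_apply, smul_eq_mul] at this
      exact this
    constructor
    · have h2 := h1 z0
      change cf v s 0 = _ at h2
      beta_reduce
      rw [h2, dif_pos hs, dif_pos (show 0 < k by omega)]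
      congr 1
      rw [Finset.sum_eq_single z0]
      · have := hX ⟨s, hs⟩ z0
        change X s 0 = _ at this
        rw [this]
      · intro j _ hj
        have hj1 : 1 ≤ (j : ℕ) := by
          rcases Nat.eq_zero_or_pos (j : ℕ) with h | h
          · exact absurd (Fin.ext h) hj
          · exact h
        rw [(hshape j hj1 ⟨s, hs⟩).2 z0 (Ne.symm hj), zero_mul]
      · simp
    · intro i hi hik
      have h2 := h1 ⟨i, hik⟩
      change cf v s i = _ at h2
      beta_reduce
      rw [h2, dif_pos hs, dif_pos (show 0 < k by omega), dif_pos hik]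
      congr 1
      have hne : z0 ≠ (⟨i, hik⟩ : Fin k) := by
        intro h
        have h' : (0 : ℕ) = i := congrArg Fin.val h
        omega
      rw [← Finset.sum_subset (Finset.subset_univ {z0, (⟨i, hik⟩ : Fin k)}), Finset.sum_pair hne]
      · have e1 := hX ⟨s, hs⟩ ⟨i, hik⟩
        change X s i = _ at e1
        have e2 := hD ⟨s, hs⟩ ⟨i, hik⟩
        change D s i = _ at e2
        rw [e1, e2]
      · intro j _ hj
        simp only [Finset.mem_insert, Finset.mem_singleton, not_or] at hj
        have hj1 : 1 ≤ (j : ℕ) := by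
          rcases Nat.eq_zero_or_pos (j : ℕ) with h | h
          · exact absurd (Fin.ext h) hj.1
          · exact h
        rw [(hshape j hj1 ⟨s, hs⟩).2 _ (Ne.symm hj.2), zero_mul]

end

end Pool.Agent.NPC.R537HA
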