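import Pool.Agent.R537.HA.Sys

/-!
# The rows and columns for a system of equations
-/

set_option autoImplicit false

namespace Pool.Agent.NPC.R537HA

open Pool.Agent.NPC Pool.Agent.NPC.ER

/-- The variables of a system. -/
def vsOf (S : List ER.Con) : List ℕ := S.flatMap Con.vars

/-- The index of a variable. -/
def ixOf (V : List ℕ) (v : ℕ) : ℕ := V.idxOf v + 2

/-- The first index of the gates. -/
def base (S : List ER.Con) : ℕ := (vsOf S).length + 3

/-- The first index of the gates of a constraint. -/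
def gOf (S : List ER.Con) (c : ER.Con) : ℕ := base S + 4 * S.idxOf c

/-- The dimension. -/
def kOf (S : List ER.Con) : ℕ := base S + 4 * (S.length + 1)

/-- The rows. -/
def rowsOf (S : List ER.Con) : List Vec :=
  ((List.range 4).flatMap fun s => (List.range (kOf S)).map fun t => unitV s t) ++
  (((List.range 4).flatMap fun s => (List.range (kOf S)).flatMap fun t =>
    (List.range (kOf S)).map fun t' => pairV s t t') ++
  (twoV 0 1 1 :: ((List.range ((vsOf S).length + 1)).flatMap (fun i => varR (i + 2)) ++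
    S.flatMap fun c => conR (ixOf (vsOf S)) (gOf S c) c)))

/-- The columns. -/
def colsOf (S : List ER.Con) : List Vec :=
  ((List.range 4).flatMap fun s => (List.range (kOf S)).map fun t => unitV s t) ++
  (((List.range (kOf S - 1)).map fun i => shapeV (i + 1)) ++
  (((List.range (kOf S - 2)).map fun i => eqV 1 1 (i + 2)) ++
    S.flatMap fun c => conK (gOf S c) c))

section

variable {S : List ER.Con}

theorem unit_mem_rows {s t : ℕ} (hs : s < 4) (ht : t < kOf S) : unitV s t ∈ rowsOf S := by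
  refine List.mem_append_left _ ?_
  exact List.mem_flatMap.2 ⟨s, List.mem_range.2 hs, List.mem_map.2 ⟨t, List.mem_range.2 ht, rfl⟩⟩

theorem pair_mem_rows {s t t' : ℕ} (hs : s < 4) (ht : t < kOf S) (ht' : t' < kOf S) :
    pairV s t t' ∈ rowsOf S := by
  refine List.mem_append_right _ (List.mem_append_left _ ?_)
  exact List.mem_flatMap.2 ⟨s, List.mem_range.2 hs, List.mem_flatMap.2 ⟨t, List.mem_range.2 ht,
    List.mem_map.2 ⟨t', List.mem_range.2 ht', rfl⟩⟩⟩

theorem ref_mem_rows : twoV 0 1 1 ∈ rowsOf S :=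
  List.mem_append_right _ (List.mem_append_right _ (List.mem_cons_self ..))

theorem var_mem_rows {i : ℕ} (hi : i ≤ (vsOf S).length) {u : Vec} (hu : u ∈ varR (i + 2)) :
    u ∈ rowsOf S :=
  List.mem_append_right _ (List.mem_append_right _ (List.mem_cons_of_mem _
    (List.mem_append_left _ (List.mem_flatMap.2 ⟨i, List.mem_range.2 (by omega), hu⟩))))

theorem con_mem_rows {c : ER.Con} (hc : c ∈ S) {u : Vec}
    (hu : u ∈ conR (ixOf (vsOf S)) (gOf S c) c) : u ∈ rowsOf S :=
  List.mem_append_right _ (List.mem_append_right _ (List.mem_cons_of_mem _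
    (List.mem_append_right _ (List.mem_flatMap.2 ⟨c, hc, hu⟩))))

theorem rows_cases {u : Vec} (hu : u ∈ rowsOf S) :
    (∃ s t, s < 4 ∧ t < kOf S ∧ u = unitV s t) ∨
    (∃ s t t', s < 4 ∧ t < kOf S ∧ t' < kOf S ∧ u = pairV s t t') ∨ u = twoV 0 1 1 ∨
    (∃ i ≤ (vsOf S).length, u ∈ varR (i + 2)) ∨
    ∃ c ∈ S, u ∈ conR (ixOf (vsOf S)) (gOf S c) c := by
  unfold rowsOf at hu
  simp only [List.mem_append, List.mem_flatMap, List.mem_map, List.mem_range, List.mem_cons] at hu
  rcases hu with ⟨s, hs, t, ht, rfl⟩ | ⟨s, hs, t, ht, t', ht', rfl⟩ | rfl | ⟨i, hi, h⟩ | h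
  · exact Or.inl ⟨s, t, hs, ht, rfl⟩
  · exact Or.inr (Or.inl ⟨s, t, t', hs, ht, ht', rfl⟩)
  · exact Or.inr (Or.inr (Or.inl rfl))
  · exact Or.inr (Or.inr (Or.inr (Or.inl ⟨i, by omega, h⟩)))
  · exact Or.inr (Or.inr (Or.inr (Or.inr h)))

theorem unit_mem_cols {s t : ℕ} (hs : s < 4) (ht : t < kOf S) : unitV s t ∈ colsOf S := by
  refine List.mem_append_left _ ?_
  exact List.mem_flatMap.2 ⟨s, List.mem_range.2 hs, List.mem_map.2 ⟨t, List.mem_range.2 ht, rfl⟩⟩

theorem shape_mem_cols {i : ℕ} (hi : 1 ≤ i) (hik : i < kOf S) : shapeV i ∈ colsOf S := by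
  refine List.mem_append_right _ (List.mem_append_left _ ?_)
  exact List.mem_map.2 ⟨i - 1, List.mem_range.2 (by omega), by rw [Nat.sub_add_cancel hi]⟩

theorem eq_mem_cols {i : ℕ} (hi : 2 ≤ i) (hik : i < kOf S) : eqV 1 1 i ∈ colsOf S := by
  refine List.mem_append_right _ (List.mem_append_right _ (List.mem_append_left _ ?_))
  exact List.mem_map.2 ⟨i - 2, List.mem_range.2 (by omega), by rw [Nat.sub_add_cancel hi]⟩

theorem con_mem_cols {c : ER.Con} (hc : c ∈ S) {u : Vec} (hu : u ∈ conK (gOf S c) c) :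
    u ∈ colsOf S :=
  List.mem_append_right _ (List.mem_append_right _ (List.mem_append_right _
    (List.mem_flatMap.2 ⟨c, hc, hu⟩)))

theorem cols_cases {u : Vec} (hu : u ∈ colsOf S) :
    (∃ s t, s < 4 ∧ t < kOf S ∧ u = unitV s t) ∨
    (∃ i, 1 ≤ i ∧ i < kOf S ∧ u = shapeV i) ∨ (∃ i, 2 ≤ i ∧ i < kOf S ∧ u = eqV 1 1 i) ∨
    ∃ c ∈ S, u ∈ conK (gOf S c) c := by
  unfold colsOf at hu
  simp only [List.mem_append, List.mem_flatMap, List.mem_map, List.mem_range] at hu
  rcases hu with ⟨s, hs, t, ht, rfl⟩ | ⟨i, hi, rfl⟩ | ⟨i, hi, rfl⟩ | h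
  · exact Or.inl ⟨s, t, hs, ht, rfl⟩
  · exact Or.inr (Or.inl ⟨i + 1, by omega, by omega, rfl⟩)
  · exact Or.inr (Or.inr (Or.inl ⟨i + 2, by omega, by omega, rfl⟩))
  · exact Or.inr (Or.inr (Or.inr h))

theorem ix_bounds (V : List ℕ) (v : ℕ) : 2 ≤ ixOf V v ∧ ixOf V v ≤ V.length + 2 := by
  have : V.idxOf v ≤ V.length := List.idxOf_le_length
  unfold ixOf
  omega

theorem g_bounds {c : ER.Con} (hc : c ∈ S) : base S ≤ gOf S c ∧ gOf S c + 4 ≤ kOf S := by
  have : S.idxOf c < S.length := List.idxOf_lt_length_iff.2 hc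
  unfold gOf kOf
  omega

theorem sat_of_frames {X D : ℕ → ℕ → ℝ} (hG : Good (kOf S) X D)
    (hr : ∀ u ∈ rowsOf S, ∃ x y, RowOk (kOf S) X D u x y)
    (hc : ∀ v ∈ colsOf S, ∃ x y, ColOk (kOf S) X D v x y) : Sat S := by
  have hkb : base S + 4 ≤ kOf S := by unfold kOf; omega
  have hb3 : (vsOf S).length + 3 = base S := rfl
  have h11 : X 1 1 = 0 := by
    obtain ⟨x, y, h⟩ := hr _ ref_mem_rows
    have h1 := two_sound (by norm_num) (by norm_num) (by norm_num) (le_refl 1) (by omega) h
    rw [hG.x0 1 (le_refl 1) (by omega), hG.d0 1 (le_refl 1) (by omega), zero_mul, one_mul] at h1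
    exact h1.symm
  have hD1 : ∀ i, 1 ≤ i → i < kOf S → D 1 i = D 1 1 := by
    intro i hi hik
    by_cases h1 : i = 1
    · rw [h1]
    · obtain ⟨x, y, h⟩ := hc _ (eq_mem_cols (S := S) (i := i) (by omega) hik)
      exact (eq_sound hG (by norm_num) (by norm_num) (le_refl 1) (by omega) hi hik
        (Ne.symm h1) h).symm
  have hd : D 1 1 ≠ 0 := hG.dne 1 (by norm_num) 1 (le_refl 1) (by omega)
  let val : ℕ → ℝ := fun i => X 1 i / D 1 1
  have hval : ∀ i, 1 ≤ i → i < kOf S → X 1 i / D 1 i = val i := fun i hi hik => by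
    simp only [val]; rw [hD1 i hi hik]
  have hadd : ∀ i j l, 2 ≤ i → i < kOf S → 2 ≤ j → j < kOf S → 2 ≤ l → l < kOf S →
      addV i j l ∈ rowsOf S → val i + val j = val l := by
    intro i j l hi hik hj hjk hl hlk hm
    obtain ⟨x, y, h⟩ := hr _ hm
    have := add_sound hG hi hik hj hjk hl hlk h11 h
    simp only [val]
    rw [← this]
    ring
  have hix : ∀ v, 2 ≤ ixOf (vsOf S) v ∧ ixOf (vsOf S) v < base S := fun v => by
    have := ix_bounds (vsOf S) v
    omega
  have hvar : ∀ v, ∀ u ∈ varR (ixOf (vsOf S) v), ∃ x y, RowOk (kOf S) X D u x y := by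
    intro v u hu
    exact hr _ (var_mem_rows (i := (vsOf S).idxOf v) List.idxOf_le_length hu)
  refine ⟨fun v => val (ixOf (vsOf S) v), fun c hcS => ?_⟩
  obtain ⟨hg1, hg2⟩ := g_bounds hcS
  cases c with
  | one v =>
    have hv := hix v
    obtain ⟨x, y, h⟩ := hr (oneV (ixOf (vsOf S) v)) (con_mem_rows hcS (by simp [conR]))
    have h1 := one_sound hG (by omega) (by omega) h
    change X 1 (ixOf (vsOf S) v) / D 1 1 = 1
    rw [← h1, hD1 _ (by omega) (by omega), div_self hd]
  | add u v w =>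
    have hu := hix u
    have hv := hix v
    have hw := hix w
    exact hadd _ _ _ hu.1 (by omega) hv.1 (by omega) hw.1 (by omega)
      (con_mem_rows hcS (by simp [conR]))
  | mul u v w =>
    have hu := hix u
    have hv := hix v
    have hw := hix w
    set g := gOf S (ER.Con.mul u v w) with hg
    have hrow : ∀ z ∈ conR (ixOf (vsOf S)) g (ER.Con.mul u v w), z ∈ rowsOf S :=
      fun z hz => con_mem_rows hcS hz
    have hd1 : D 2 g = D 2 (g + 1) := by
      obtain ⟨x, y, h⟩ := hc (eqV 2 g (g + 1)) (con_mem_cols hcS (by simp [conK, ← hg]))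
      exact eq_sound hG (by norm_num) (by norm_num) (by omega) (by omega) (by omega) (by omega)
        (by omega) h
    have hd2 : D 2 (g + 2) = D 2 (g + 3) := by
      obtain ⟨x, y, h⟩ := hc (eqV 2 (g + 2) (g + 3)) (con_mem_cols hcS (by simp [conK, ← hg]))
      exact eq_sound hG (by norm_num) (by norm_num) (by omega) (by omega) (by omega) (by omega)
        (by omega) h
    have e1 := gate_sound hG (l := ixOf (vsOf S) u) (a := g) (b := g + 1) (by omega) (by omega)
      (by omega) (by omega) (by omega) (by omega) (by omega) hd1 (hvar u)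
      (fun z hz => hr z (hrow z (by simp only [conR, List.mem_append]; exact Or.inl hz)))
    have e2 := gate_sound hG (l := ixOf (vsOf S) u) (a := g + 2) (b := g + 3) (by omega)
      (by omega) (by omega) (by omega) (by omega) (by omega) (by omega) hd2 (hvar u)
      (fun z hz => hr z (hrow z (by
        simp only [conR, List.mem_append]; exact Or.inr (Or.inl hz))))
    rw [hval _ (by omega) (by omega), hval _ (by omega) (by omega),
      hval _ (by omega) (by omega)] at e1 e2
    have e3 := hadd (ixOf (vsOf S) v) (g + 3) (g + 1) (by omega) (by omega) (by omega)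
      (by omega) (by omega) (by omega) (hrow _ (by simp [conR]))
    have e4 := hadd (ixOf (vsOf S) w) (g + 2) g (by omega) (by omega) (by omega)
      (by omega) (by omega) (by omega) (hrow _ (by simp [conR]))
    change val (ixOf (vsOf S) u) * val (ixOf (vsOf S) v) = val (ixOf (vsOf S) w)
    linear_combination e1 - e2 + (val (ixOf (vsOf S) u)) * e3 - e4

/-! ### Completeness -/

/-- The nonzero multipliers. -/
noncomputable def bOf (t : ℝ) (r : ℕ) : ℝ := by
  classical exact (if t + 1 = 0 then 2 else 1) + (if r < 2 then t else 0)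

theorem bOf_ne (t : ℝ) (r : ℕ) : bOf t r ≠ 0 := by
  unfold bOf
  by_cases h : t + 1 = 0
  · have : t = -1 := by linarith
    rw [if_pos h]
    by_cases h2 : r < 2
    · rw [if_pos h2, this]; norm_num
    · rw [if_neg h2]; norm_num
  · rw [if_neg h]
    by_cases h2 : r < 2
    · rw [if_pos h2, add_comm]; exact h
    · rw [if_neg h2]; norm_num

/-- The top coordinates at a gate. -/
noncomputable def gX (a b : ℝ) (r s : ℕ) : ℝ :=
  if r % 2 = 0 then (if s = 1 then a * b else if s = 2 then a else 0)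
  else (if s = 1 then b else 0)

/-- The scales at a gate. -/
noncomputable def gD (b : ℝ) (r s : ℕ) : ℝ :=
  if s = 2 then 1 / b else if s = 3 then (if r % 2 = 0 then 1 / b else 1) else 1

/-- The top coordinates. -/
noncomputable def Xf (x : ℕ → ℝ) (S : List ER.Con) (s i : ℕ) : ℝ :=
  if i = 0 then 1 else if i < base S then
    (if s = 1 ∨ s = 3 then (if i = 1 then 0 else x ((vsOf S).getD (i - 2) 0)) else 0)
  else match S.getD ((i - base S) / 4) (ER.Con.one 0) with
    | ER.Con.mul u v _ => gX (x u) (bOf (x v) ((i - base S) % 4)) ((i - base S) % 4) s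
    | _ => 0

/-- The scales. -/
noncomputable def Df (x : ℕ → ℝ) (S : List ER.Con) (s i : ℕ) : ℝ :=
  if i < base S then 1
  else match S.getD ((i - base S) / 4) (ER.Con.one 0) with
    | ER.Con.mul _ v _ => gD (bOf (x v) ((i - base S) % 4)) ((i - base S) % 4) s
    | _ => 1

variable {x : ℕ → ℝ}

theorem Xf_zero (s : ℕ) : Xf x S s 0 = 1 := by simp [Xf]

theorem gD_ne {b : ℝ} (hb : b ≠ 0) (r s : ℕ) : gD b r s ≠ 0 := by
  unfold gD
  split_ifs <;> first | exact one_div_ne_zero hb | exact one_ne_zero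

theorem Df_ne (s i : ℕ) : Df x S s i ≠ 0 := by
  unfold Df
  split_ifs
  · exact one_ne_zero
  · split
    · exact gD_ne (bOf_ne _ _) _ _
    · exact one_ne_zero

theorem Df_low {s : ℕ} (hs : s < 2) (i : ℕ) : Df x S s i = 1 := by
  unfold Df
  split_ifs
  · rfl
  · split
    · unfold gD
      rw [if_neg (by omega), if_neg (by omega)]
    · rfl

theorem Xf_low {i : ℕ} (hi : 1 ≤ i) : Xf x S 0 i = 0 := by
  unfold Xf
  rw [if_neg (by omega)]
  by_cases h1 : i < base S
  · rw [if_pos h1, if_neg (by norm_num)]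
  · rw [if_neg h1]
    split
    · unfold gX
      simp
    · rfl

theorem good_f : Good (kOf S) (Xf x S) (Df x S) where
  x00 := Xf_zero 0
  x0 := fun i hi _ => Xf_low hi
  d0 := fun i _ _ => Df_low (by norm_num) i
  dne := fun s _ i _ _ => Df_ne s i

theorem Xf_one : Xf x S 1 1 = 0 := by
  unfold Xf base
  rw [if_neg (by norm_num), if_pos (by omega)]
  simp

theorem Xf_var {s i : ℕ} (hi : i ≤ (vsOf S).length) :
    Xf x S s (i + 2) = if s = 1 ∨ s = 3 then x ((vsOf S).getD i 0) else 0 := by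
  unfold Xf base
  rw [if_neg (by omega), if_pos (by omega)]
  simp

theorem Df_var {s i : ℕ} (hi : i < base S) : Df x S s i = 1 := by
  unfold Df
  rw [if_pos hi]

theorem Xf_ix {s v : ℕ} (hv : v ∈ vsOf S) :
    Xf x S s (ixOf (vsOf S) v) = if s = 1 ∨ s = 3 then x v else 0 := by
  have hi : (vsOf S).idxOf v < (vsOf S).length := List.idxOf_lt_length_iff.2 hv
  unfold ixOf
  rw [Xf_var hi.le, List.getD_eq_getElem _ _ hi, List.getElem_idxOf hi]

theorem getD_g {c : ER.Con} (hc : c ∈ S) {r : ℕ} (hr : r < 4) :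
    S.getD ((gOf S c + r - base S) / 4) (ER.Con.one 0) = c ∧ (gOf S c + r - base S) % 4 = r := by
  have hi : S.idxOf c < S.length := List.idxOf_lt_length_iff.2 hc
  have e : gOf S c + r - base S = 4 * S.idxOf c + r := by unfold gOf; omega
  rw [e]
  have e1 : (4 * S.idxOf c + r) / 4 = S.idxOf c := by omega
  have e2 : (4 * S.idxOf c + r) % 4 = r := by omega
  rw [e1, e2, List.getD_eq_getElem _ _ hi, List.getElem_idxOf hi]
  exact ⟨rfl, rfl⟩

theorem Xf_gate {u v w s r : ℕ} (hc : ER.Con.mul u v w ∈ S) (hr : r < 4) :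
    Xf x S s (gOf S (ER.Con.mul u v w) + r) = gX (x u) (bOf (x v) r) r s := by
  obtain ⟨h1, h2⟩ := getD_g hc hr
  obtain ⟨h3, -⟩ := g_bounds hc
  have hb : 3 ≤ base S := by unfold base; omega
  unfold Xf
  rw [if_neg (by omega), if_neg (by omega), h1, h2]

theorem Df_gate {u v w s r : ℕ} (hc : ER.Con.mul u v w ∈ S) (hr : r < 4) :
    Df x S s (gOf S (ER.Con.mul u v w) + r) = gD (bOf (x v) r) r s := by
  obtain ⟨h1, h2⟩ := getD_g hc hr
  obtain ⟨h3, -⟩ := g_bounds hc
  unfold Df
  rw [if_neg (by omega), h1, h2]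

theorem var_rows {i : ℕ} (hi : i ≤ (vsOf S).length) {u : Vec} (hu : u ∈ varR (i + 2)) :
    ∃ y z, RowOk (kOf S) (Xf x S) (Df x S) u y z := by
  have hb : i + 2 < base S := by unfold base; omega
  simp only [varR, List.mem_cons, List.not_mem_nil, or_false] at hu
  rcases hu with rfl | rfl | rfl
  · exact ⟨_, _, two_row (by norm_num) 1 (by simp [Xf_var hi]) (by simp [Df_var hb])⟩
  · exact ⟨_, _, norm_row (by omega) (Xf_zero _) (Xf_zero _) (by simp [Xf_var hi])
      (by simp [Xf_var hi]) (Df_var hb) (Df_var hb)⟩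
  · exact ⟨_, _, two_row (by norm_num) 1 (by simp [Xf_var hi]) (by simp [Df_var hb])⟩

theorem ix_base (v : ℕ) : ixOf (vsOf S) v < base S := by
  have := ix_bounds (vsOf S) v
  unfold base
  omega

theorem gate_rows {u v w : ℕ} (hc : ER.Con.mul u v w ∈ S) {r : ℕ} (hr : r = 0 ∨ r = 2) {z : Vec}
    (hz : z ∈ gateR (ixOf (vsOf S) u) (gOf S (ER.Con.mul u v w) + r)
      (gOf S (ER.Con.mul u v w) + (r + 1))) :
    ∃ y y', RowOk (kOf S) (Xf x S) (Df x S) z y y' := by
  obtain ⟨h3, h4⟩ := g_bounds hc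
  have hu : u ∈ vsOf S := List.mem_flatMap.2 ⟨_, hc, by simp [Con.vars]⟩
  have hib := ix_base (S := S) u
  have hi2 := (ix_bounds (vsOf S) u).1
  set g := gOf S (ER.Con.mul u v w) with hg
  have hr4 : r < 4 := by omega
  have hr4' : r + 1 < 4 := by omega
  have hr2 : r % 2 = 0 := by omega
  have hr2' : (r + 1) % 2 ≠ 0 := by omega
  have hbb : bOf (x v) (r + 1) = bOf (x v) r := by
    unfold bOf
    rcases hr with rfl | rfl <;> simp
  have hne := bOf_ne (x v) r
  have XA : ∀ s, Xf x S s (g + r) = gX (x u) (bOf (x v) r) r s := fun s => Xf_gate hc hr4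
  have XB : ∀ s, Xf x S s (g + (r + 1)) = gX (x u) (bOf (x v) r) (r + 1) s := fun s => by
    rw [Xf_gate hc hr4', hbb]
  have DA : ∀ s, Df x S s (g + r) = gD (bOf (x v) r) r s := fun s => Df_gate hc hr4
  have DB : ∀ s, Df x S s (g + (r + 1)) = gD (bOf (x v) r) (r + 1) s := fun s => by
    rw [Df_gate hc hr4', hbb]
  have XL : ∀ s, Xf x S s (ixOf (vsOf S) u) = if s = 1 ∨ s = 3 then x u else 0 :=
    fun s => Xf_ix hu
  have DL : ∀ s, Df x S s (ixOf (vsOf S) u) = 1 := fun s => Df_var hib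
  simp only [gateR, List.mem_cons, List.not_mem_nil, or_false] at hz
  rcases hz with rfl | rfl | rfl | rfl | rfl
  · refine ⟨_, _, two_row (by norm_num) (1 / bOf (x v) r) ?_ ?_⟩
    · rw [XA, XA]; simp only [gX, hr2]; simp; field_simp
    · rw [DA, DA]; simp [gD]
  · refine ⟨_, _, two_row (by norm_num) (1 / bOf (x v) r) ?_ ?_⟩
    · rw [XA, XA]; simp [gX, hr2]
    · rw [DA, DA]; simp [gD, hr2]
  · refine ⟨_, _, two_row (by norm_num) (1 / bOf (x v) r) ?_ ?_⟩
    · rw [XB, XB]; simp [gX, hr2']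
    · rw [DB, DB]; simp [gD]
  · have e1 : Xf x S 1 (g + (r + 1)) = bOf (x v) r := by rw [XB]; simp [gX, hr2']
    refine ⟨_, _, inv_row (by omega) (Xf_zero 2) ?_ ?_ ?_ ?_⟩
    · rw [e1]; exact hne
    · rw [XB]; simp [gX, hr2']
    · rw [DB]; simp [gD]
    · rw [DB, e1]; simp [gD]
  · refine ⟨_, _, mix_row (by omega) (by omega) (by omega) ?_ ?_ ?_ (DL _) (DL _) ?_⟩
    · rw [XL]; simp
    · rw [XA]; simp [gX, hr2]
    · rw [XA, XL]; simp [gX, hr2]
    · rw [DA, DA]; simp [gD, hr2]

theorem con_rows (hx : SysHolds x S) {c : ER.Con} (hc : c ∈ S) {u : Vec}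
    (hu : u ∈ conR (ixOf (vsOf S)) (gOf S c) c) :
    ∃ y z, RowOk (kOf S) (Xf x S) (Df x S) u y z := by
  have hcx := hx c hc
  have hone : ∀ v, v ∈ c.vars → v ∈ vsOf S := fun v hv => List.mem_flatMap.2 ⟨c, hc, hv⟩
  have hadd : ∀ i j l, 1 ≤ i → 1 ≤ j → 1 ≤ l →
      Xf x S 1 i + Xf x S 1 j = Xf x S 1 l → ∃ y z, RowOk (kOf S) (Xf x S) (Df x S)
        (addV i j l) y z := by
    intro i j l hi hj hl h
    exact ⟨_, _, add_row (Xf_low (le_refl 1)) (Xf_low hi) (Xf_low hj) (Xf_low hl) Xf_one h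
      (fun t => Df_low (by norm_num) t) (fun t => Df_low (by norm_num) t)⟩
  have hix2 : ∀ v, 1 ≤ ixOf (vsOf S) v := fun v => by
    have := (ix_bounds (vsOf S) v).1
    omega
  cases c with
  | one v =>
    simp only [conR, List.mem_cons, List.not_mem_nil, or_false] at hu
    subst hu
    have hv := hone v (by simp [Con.vars])
    refine ⟨_, _, one_row (hix2 v) (Xf_zero _) (Xf_low (hix2 v)) ?_ (Df_low (by norm_num) _)
      (Df_low (by norm_num) _)⟩
    rw [Xf_ix hv]
    simpa [Con.Holds] using hcx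
  | add u' v w =>
    simp only [conR, List.mem_cons, List.not_mem_nil, or_false] at hu
    subst hu
    refine hadd _ _ _ (hix2 _) (hix2 _) (hix2 _) ?_
    rw [Xf_ix (hone u' (by simp [Con.vars])), Xf_ix (hone v (by simp [Con.vars])),
      Xf_ix (hone w (by simp [Con.vars]))]
    simpa [Con.Holds] using hcx
  | mul u' v w =>
    obtain ⟨h3, h4⟩ := g_bounds hc
    have hb : 3 ≤ base S := by unfold base; omega
    have XG : ∀ r, r < 4 → Xf x S 1 (gOf S (ER.Con.mul u' v w) + r) =
        gX (x u') (bOf (x v) r) r 1 := fun r hr => Xf_gate hc hr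
    have hcx' : x u' * x v = x w := hcx
    simp only [conR, List.mem_append, List.mem_cons, List.not_mem_nil, or_false] at hu
    rcases hu with hu | hu | rfl | rfl
    · exact gate_rows hc (Or.inl rfl) hu
    · exact gate_rows hc (Or.inr rfl) hu
    · refine hadd _ _ _ (hix2 _) (by omega) (by omega) ?_
      rw [Xf_ix (hone v (by simp [Con.vars])), XG 3 (by norm_num), XG 1 (by norm_num)]
      simp [gX, bOf]
      ring
    · refine hadd _ _ _ (hix2 _) (by omega) (by omega) ?_
      have e0 := XG 0 (by norm_num)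
      rw [add_zero] at e0
      rw [Xf_ix (hone w (by simp [Con.vars])), XG 2 (by norm_num), e0]
      simp only [gX, bOf]
      norm_num
      rw [← hcx']
      split_ifs <;> ring

/-- The frames of a solution satisfy all rows. -/
theorem rows_f (hx : SysHolds x S) {u : Vec} (hu : u ∈ rowsOf S) :
    ∃ y z, RowOk (kOf S) (Xf x S) (Df x S) u y z := by
  rcases rows_cases hu with ⟨s, t, hs, ht, rfl⟩ | ⟨s, t, t', hs, ht, ht', rfl⟩ | rfl |
    ⟨i, hi, h⟩ | ⟨c, hc, h⟩
  · exact ⟨_, _, unit_row hs ht⟩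
  · exact ⟨_, _, pair_row hs⟩
  · refine ⟨_, _, two_row (by norm_num) 1 ?_ ?_⟩
    · rw [Xf_one, Xf_low (le_refl 1), mul_zero]
    · rw [Df_low (by norm_num), Df_low (by norm_num), mul_one]
  · exact var_rows hi h
  · exact con_rows hx hc h

/-- The frames of a solution satisfy all columns. -/
theorem cols_f {v : Vec} (hv : v ∈ colsOf S) :
    ∃ y z, ColOk (kOf S) (Xf x S) (Df x S) v y z := by
  rcases cols_cases hv with ⟨s, t, hs, ht, rfl⟩ | ⟨i, hi, hik, rfl⟩ | ⟨i, hi, hik, rfl⟩ |
    ⟨c, hc, h⟩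
  · exact ⟨_, _, unit_col hs (Xf_zero s) (fun i _ _ => Df_ne s i) ht⟩
  · exact ⟨_, _, shape_col hi (fun s _ => Df_ne s i)⟩
  · exact ⟨_, _, eq_col (by norm_num) (le_refl 1) (by omega) (by omega)
      (Df_low (by norm_num) _) (Df_low (by norm_num) _)
      (by rw [Df_low (by norm_num), Df_low (by norm_num)]) (Df_ne _ _)⟩
  · obtain ⟨h3, h4⟩ := g_bounds hc
    have hb : 3 ≤ base S := by unfold base; omega
    cases c with
    | one v => simp [conK] at h
    | add u v w => simp [conK] at h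
    | mul u v w =>
      have DG : ∀ r, r < 4 → Df x S 2 (gOf S (ER.Con.mul u v w) + r) =
        1 / bOf (x v) r := fun r hr => by rw [Df_gate hc hr]; simp [gD]
      have e0 := DG 0 (by norm_num)
      rw [add_zero] at e0
      simp only [conK, List.mem_cons, List.not_mem_nil, or_false] at h
      rcases h with rfl | rfl
      · refine ⟨_, _, eq_col (by norm_num) (by omega) (by omega) (by omega)
          (Df_low (by norm_num) _) (Df_low (by norm_num) _) ?_ (Df_ne _ _)⟩
        rw [e0, DG 1 (by norm_num)]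
        simp [bOf]
      · refine ⟨_, _, eq_col (by norm_num) (by omega) (by omega) (by omega)
          (Df_low (by norm_num) _) (Df_low (by norm_num) _) ?_ (Df_ne _ _)⟩
        rw [DG 2 (by norm_num), DG 3 (by norm_num)]
        simp [bOf]

end

end Pool.Agent.NPC.R537HA
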