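import Pool.Agent.R537.HA.Comp
import Pool.Agent.H612.CollectPoly
import Pool.Agent.H687R2.IntPoly
import Pool.Agent.ER.Hard

/-!
# The reduction is computable in polynomial time
-/

set_option autoImplicit false

namespace Pool.Agent.NPC.R537HA

open Pool.Agent.NPC Pool.Agent.NPC.ER
open Pool.Agent.NPC.H612 (poly_idxOf)

section

variable {α : Type} [TEnc α]

theorem poly_con_vars {f : α → ER.Con} (hf : Poly f) : Poly (fun a => (f a).vars) := by
  have h0 : Poly (fun a => (f a).code) := poly_con_code hf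
  have h1 : Poly (fun a => decide ((f a).code.1 = 0)) := Poly.decide_eq (Poly.fst h0) (Poly.const 0)
  have h : Poly (fun a => if (f a).code.1 = 0 then [(f a).code.2.1] else
      [(f a).code.2.1, (f a).code.2.2.1, (f a).code.2.2.2]) :=
    Poly.ite h1 (Poly.cons (Poly.fst (Poly.snd h0)) (Poly.const _))
      (Poly.cons (Poly.fst (Poly.snd h0)) (Poly.cons (Poly.fst (Poly.snd (Poly.snd h0)))
        (Poly.cons (Poly.snd (Poly.snd (Poly.snd h0))) (Poly.const _))))
  refine h.congr fun a => ?_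
  cases f a <;> simp [Con.code, Con.vars]

theorem poly_vsOf {S : α → List ER.Con} (hS : Poly S) : Poly (fun a => vsOf (S a)) :=
  Poly.flatMap (F := fun _ c => Con.vars c) hS (poly_con_vars (Poly.snd Poly.id))

variable {S : α → List ER.Con} {V : α → List ℕ} {c : α → ER.Con} {s s' t t' i j l g u v w : α → ℕ}

theorem poly_ixOf (hV : Poly V) (hv : Poly v) : Poly (fun a => ixOf (V a) (v a)) :=
  Poly.add (poly_idxOf hV hv) (Poly.const 2)

theorem upoly_base (hS : Poly S) : UPoly (fun a => base (S a)) :=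
  UPoly.add (UPoly.length (poly_vsOf hS)) (UPoly.const 3)

theorem upoly_kOf (hS : Poly S) : UPoly (fun a => kOf (S a)) :=
  UPoly.add (upoly_base hS) (UPoly.mul (UPoly.const 4) (UPoly.add (UPoly.length hS)
    (UPoly.const 1)))

theorem poly_gOf (hS : Poly S) (hc : Poly c) : Poly (fun a => gOf (S a) (c a)) :=
  Poly.add (upoly_base hS).toPoly (Poly.mul (Poly.const 4) (poly_idxOf hS hc))

theorem poly_ent (z : ℤ) (hs : Poly s) (ht : Poly t) :
    Poly (fun a => (((s a, t a), z) : (ℕ × ℕ) × ℤ)) :=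
  Poly.pair (Poly.pair hs ht) (Poly.const z)

theorem poly_nil : Poly (fun _ : α => ([] : Vec)) := Poly.const []

theorem poly_unitV (hs : Poly s) (ht : Poly t) : Poly (fun a => unitV (s a) (t a)) :=
  Poly.cons (poly_ent 1 hs ht) poly_nil

theorem poly_pairV (hs : Poly s) (ht : Poly t) (ht' : Poly t') :
    Poly (fun a => pairV (s a) (t a) (t' a)) :=
  Poly.cons (poly_ent 1 hs ht) (Poly.cons (poly_ent 1 hs ht') poly_nil)

theorem poly_twoV (b b' : ℕ) (hi : Poly i) : Poly (fun a => twoV b b' (i a)) :=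
  Poly.cons (poly_ent 1 (Poly.const b) hi) (Poly.cons (poly_ent 1 (Poly.const b') hi) poly_nil)

theorem poly_normV (hi : Poly i) : Poly (fun a => normV (i a)) :=
  Poly.cons (poly_ent 1 (Poly.const 0) (Poly.const 0)) (Poly.cons (poly_ent 1 (Poly.const 0) hi)
    (Poly.cons (poly_ent 1 (Poly.const 2) (Poly.const 0))
      (Poly.cons (poly_ent 1 (Poly.const 2) hi) poly_nil)))

theorem poly_invV (hi : Poly i) : Poly (fun a => invV (i a)) :=
  Poly.cons (poly_ent 1 (Poly.const 1) hi) (Poly.cons (poly_ent 1 (Poly.const 2) hi)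
    (Poly.cons (poly_ent 1 (Poly.const 2) (Poly.const 0)) poly_nil))

theorem poly_mixV (hi : Poly i) (hl : Poly l) : Poly (fun a => mixV (i a) (l a)) :=
  Poly.cons (poly_ent 1 (Poly.const 2) hi) (Poly.cons (poly_ent 1 (Poly.const 2) hl)
    (Poly.cons (poly_ent 1 (Poly.const 3) hi)
      (Poly.cons (poly_ent 1 (Poly.const 3) hl) poly_nil)))

theorem poly_oneV (hi : Poly i) : Poly (fun a => oneV (i a)) :=
  Poly.cons (poly_ent 1 (Poly.const 0) (Poly.const 0)) (Poly.cons (poly_ent 1 (Poly.const 0) hi)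
    (Poly.cons (poly_ent 1 (Poly.const 1) hi) poly_nil))

theorem poly_addV (hi : Poly i) (hj : Poly j) (hl : Poly l) :
    Poly (fun a => addV (i a) (j a) (l a)) :=
  Poly.cons (poly_ent 1 (Poly.const 0) (Poly.const 1)) (Poly.cons
    (poly_ent 1 (Poly.const 1) (Poly.const 1)) (Poly.cons (poly_ent 1 (Poly.const 0) hi)
    (Poly.cons (poly_ent 1 (Poly.const 1) hi) (Poly.cons (poly_ent 1 (Poly.const 0) hj)
    (Poly.cons (poly_ent 1 (Poly.const 1) hj) (Poly.cons (poly_ent (-1) (Poly.const 0) hl)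
    (Poly.cons (poly_ent (-1) (Poly.const 1) hl) poly_nil)))))))

theorem poly_shapeV (hi : Poly i) : Poly (fun a => shapeV (i a)) :=
  Poly.cons (poly_ent 1 (Poly.const 0) hi) (Poly.cons (poly_ent 1 (Poly.const 1) hi)
    (Poly.cons (poly_ent 1 (Poly.const 2) hi)
      (Poly.cons (poly_ent 1 (Poly.const 3) hi) poly_nil)))

theorem poly_eqV (b : ℕ) (hi : Poly i) (hj : Poly j) : Poly (fun a => eqV b (i a) (j a)) :=
  Poly.cons (poly_ent 1 (Poly.const 0) hi) (Poly.cons (poly_ent 1 (Poly.const 0) hj)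
    (Poly.cons (poly_ent 1 (Poly.const b) hi)
      (Poly.cons (poly_ent 1 (Poly.const b) hj) poly_nil)))

theorem poly_vnil : Poly (fun _ : α => ([] : List Vec)) := Poly.const []

theorem poly_varR (hi : Poly i) : Poly (fun a => varR (i a)) :=
  Poly.cons (poly_twoV 0 2 hi) (Poly.cons (poly_normV hi) (Poly.cons (poly_twoV 1 3 hi) poly_vnil))

theorem poly_gateR (hl : Poly l) (hi : Poly i) (hj : Poly j) :
    Poly (fun a => gateR (l a) (i a) (j a)) :=
  Poly.cons (poly_twoV 1 2 hi) (Poly.cons (poly_twoV 0 3 hi) (Poly.cons (poly_twoV 0 2 hj)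
    (Poly.cons (poly_invV hj) (Poly.cons (poly_mixV hi hl) poly_vnil))))

theorem conR_eq (ix : ℕ → ℕ) (g : ℕ) (c : ER.Con) : conR ix g c =
    if c.code.1 = 0 then [oneV (ix c.code.2.1)]
    else if c.code.1 = 1 then [addV (ix c.code.2.1) (ix c.code.2.2.1) (ix c.code.2.2.2)]
    else gateR (ix c.code.2.1) g (g + 1) ++ (gateR (ix c.code.2.1) (g + 2) (g + 3) ++
      [addV (ix c.code.2.2.1) (g + 3) (g + 1), addV (ix c.code.2.2.2) (g + 2) g]) := by
  cases c <;> rfl

theorem poly_conR (hV : Poly V) (hg : Poly g) (hc : Poly c) :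
    Poly (fun a => conR (ixOf (V a)) (g a) (c a)) := by
  have h0 : Poly (fun a => (c a).code) := poly_con_code hc
  have d0 : Poly (fun a => decide ((c a).code.1 = 0)) :=
    Poly.decide_eq (Poly.fst h0) (Poly.const 0)
  have d1 : Poly (fun a => decide ((c a).code.1 = 1)) :=
    Poly.decide_eq (Poly.fst h0) (Poly.const 1)
  have e1 := poly_ixOf hV (Poly.fst (Poly.snd h0))
  have e2 := poly_ixOf hV (Poly.fst (Poly.snd (Poly.snd h0)))
  have e3 := poly_ixOf hV (Poly.snd (Poly.snd (Poly.snd h0)))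
  have g1 : Poly (fun a => g a + 1) := Poly.add hg (Poly.const 1)
  have g2 : Poly (fun a => g a + 2) := Poly.add hg (Poly.const 2)
  have g3 : Poly (fun a => g a + 3) := Poly.add hg (Poly.const 3)
  refine (Poly.ite d0 (Poly.cons (poly_oneV e1) poly_vnil) (Poly.ite d1
    (Poly.cons (poly_addV e1 e2 e3) poly_vnil) (Poly.append (poly_gateR e1 hg g1)
      (Poly.append (poly_gateR e1 g2 g3) (Poly.cons (poly_addV e2 g3 g1)
        (Poly.cons (poly_addV e3 g2 hg) poly_vnil)))))).congr fun a => ?_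
  exact (conR_eq _ _ _).symm

theorem conK_eq (g : ℕ) (c : ER.Con) : conK g c =
    if c.code.1 = 2 then [eqV 2 g (g + 1), eqV 2 (g + 2) (g + 3)] else [] := by
  cases c <;> rfl

theorem poly_conK (hg : Poly g) (hc : Poly c) : Poly (fun a => conK (g a) (c a)) := by
  have h0 : Poly (fun a => (c a).code) := poly_con_code hc
  have d0 : Poly (fun a => decide ((c a).code.1 = 2)) :=
    Poly.decide_eq (Poly.fst h0) (Poly.const 2)
  have g1 : Poly (fun a => g a + 1) := Poly.add hg (Poly.const 1)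
  have g2 : Poly (fun a => g a + 2) := Poly.add hg (Poly.const 2)
  have g3 : Poly (fun a => g a + 3) := Poly.add hg (Poly.const 3)
  refine (Poly.ite d0 (Poly.cons (poly_eqV 2 hg g1) (Poly.cons (poly_eqV 2 g2 g3) poly_vnil))
    poly_vnil).congr fun a => ?_
  exact (conK_eq _ _).symm

theorem poly_rowsOf (hS : Poly S) : Poly (fun a => rowsOf (S a)) := by
  have hk := upoly_kOf hS
  refine Poly.append ?_ (Poly.append ?_ (Poly.cons (Poly.const _) (Poly.append ?_ ?_)))
  · refine Poly.flatMap (F := fun a s => (List.range (kOf (S a))).map fun t => unitV s t)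
      (Poly.const _) ?_
    exact Poly.map (F := fun (p : α × ℕ) t => unitV p.2 t) (hk.range.comp (Poly.fst Poly.id))
      (poly_unitV (Poly.snd (Poly.fst Poly.id)) (Poly.snd Poly.id))
  · refine Poly.flatMap (F := fun a s => (List.range (kOf (S a))).flatMap fun t =>
      (List.range (kOf (S a))).map fun t' => pairV s t t') (Poly.const _) ?_
    refine Poly.flatMap (F := fun (p : α × ℕ) t => (List.range (kOf (S p.1))).map fun t' =>
      pairV p.2 t t') (hk.range.comp (Poly.fst Poly.id)) ?_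
    exact Poly.map (F := fun (p : (α × ℕ) × ℕ) t' => pairV p.1.2 p.2 t')
      (hk.range.comp (Poly.fst (Poly.fst Poly.id)))
      (poly_pairV (Poly.snd (Poly.fst (Poly.fst Poly.id))) (Poly.snd (Poly.fst Poly.id))
        (Poly.snd Poly.id))
  · refine Poly.flatMap (F := fun _ i => varR (i + 2))
      (UPoly.add (UPoly.length (poly_vsOf hS)) (UPoly.const 1)).range ?_
    exact poly_varR (Poly.add (Poly.snd Poly.id) (Poly.const 2))
  · refine Poly.flatMap (F := fun a c => conR (ixOf (vsOf (S a))) (gOf (S a) c) c) hS ?_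
    have h1 : Poly (fun p : α × ER.Con => S p.1) := hS.comp (Poly.fst Poly.id)
    exact poly_conR (poly_vsOf h1) (poly_gOf h1 (Poly.snd Poly.id)) (Poly.snd Poly.id)

theorem poly_colsOf (hS : Poly S) : Poly (fun a => colsOf (S a)) := by
  have hk := upoly_kOf hS
  have hk1 : UPoly (fun a => kOf (S a) - 1) :=
    UPoly.of_le (Poly.sub hk.toPoly (Poly.const 1)) hk fun a => Nat.sub_le _ _
  have hk2 : UPoly (fun a => kOf (S a) - 2) :=
    UPoly.of_le (Poly.sub hk.toPoly (Poly.const 2)) hk fun a => Nat.sub_le _ _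
  refine Poly.append ?_ (Poly.append ?_ (Poly.append ?_ ?_))
  · refine Poly.flatMap (F := fun a s => (List.range (kOf (S a))).map fun t => unitV s t)
      (Poly.const _) ?_
    exact Poly.map (F := fun (p : α × ℕ) t => unitV p.2 t) (hk.range.comp (Poly.fst Poly.id))
      (poly_unitV (Poly.snd (Poly.fst Poly.id)) (Poly.snd Poly.id))
  · exact Poly.map (F := fun _ i => shapeV (i + 1)) hk1.range
      (poly_shapeV (Poly.add (Poly.snd Poly.id) (Poly.const 1)))
  · exact Poly.map (F := fun _ i => eqV 1 1 (i + 2)) hk2.range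
      (poly_eqV 1 (Poly.const 1) (Poly.add (Poly.snd Poly.id) (Poly.const 2)))
  · refine Poly.flatMap (F := fun a c => conK (gOf (S a) c) c) hS ?_
    have h1 : Poly (fun p : α × ER.Con => S p.1) := hS.comp (Poly.fst Poly.id)
    exact poly_conK (poly_gOf h1 (Poly.snd Poly.id)) (Poly.snd Poly.id)

theorem poly_idot {f f' : α → Vec} (hf : Poly f) (hf' : Poly f') :
    Poly (fun a => idot (f a) (f' a)) := by
  refine Poly.isum (Poly.map (F := fun a (q : (ℕ × ℕ) × ℤ) =>
    ((f a).map fun p => if p.1 = q.1 then p.2 * q.2 else 0).sum) hf' ?_)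
  refine Poly.isum (Poly.map (F := fun (r : α × ((ℕ × ℕ) × ℤ)) (p : (ℕ × ℕ) × ℤ) =>
    if p.1 = r.2.1 then p.2 * r.2.2 else 0) (hf.comp (Poly.fst Poly.id)) ?_)
  have p1 : Poly (fun r : (α × ((ℕ × ℕ) × ℤ)) × ((ℕ × ℕ) × ℤ) => r.2.1) :=
    Poly.fst (Poly.snd Poly.id)
  have p2 : Poly (fun r : (α × ((ℕ × ℕ) × ℤ)) × ((ℕ × ℕ) × ℤ) => r.2.2) :=
    Poly.snd (Poly.snd Poly.id)
  have q1 : Poly (fun r : (α × ((ℕ × ℕ) × ℤ)) × ((ℕ × ℕ) × ℤ) => r.1.2.1) :=
    Poly.fst (Poly.snd (Poly.fst Poly.id))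
  have q2 : Poly (fun r : (α × ((ℕ × ℕ) × ℤ)) × ((ℕ × ℕ) × ℤ) => r.1.2.2) :=
    Poly.snd (Poly.snd (Poly.fst Poly.id))
  exact Poly.ite ((Poly.decide_eq p1 q1).congr fun a => decide_eq_decide.2 Iff.rfl)
    (Poly.imul p2 q2) (Poly.const 0)

theorem poly_intToRat {z : α → ℤ} (hz : Poly z) : Poly (fun a => ((z a : ℤ) : ℚ)) := by
  have h : Poly (fun a => (z a, (1 : ℕ))) := Poly.pair hz (Poly.const 1)
  have h2 : Poly (fun a => (((z a : ℤ) : ℚ).num, ((z a : ℤ) : ℚ).den)) := h.congr fun a => by simp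
  exact h2

theorem poly_matOf (hS : Poly S) : Poly (fun a => matOf (S a)) := by
  refine Poly.map (F := fun a u => (colsOf (S a)).map fun v => ((idot u v : ℤ) : ℚ))
    (poly_rowsOf hS) ?_
  refine Poly.map (F := fun (p : α × Vec) v => ((idot p.2 v : ℤ) : ℚ))
    (poly_colsOf (hS.comp (Poly.fst Poly.id))) ?_
  exact poly_intToRat (poly_idot (Poly.snd (Poly.fst Poly.id)) (Poly.snd Poly.id))

theorem poly_inst : Poly inst :=
  Poly.pair (poly_matOf Poly.id) (Poly.pair (Poly.const 4) (upoly_kOf Poly.id).toPoly)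

end

/-- The Hadamard decomposition problem is `∃ℝ`-hard. -/
theorem hd_hard : ERHard (lang HadamardDecomposition) :=
  ERHard.of_sys poly_inst sat_iff_decomp

/-- The Hadamard decomposition problem is `∃ℝ`-hard if the first rank is `4`. -/
theorem hd_hard4 : ERHard (lang fun I : RMat × ℕ => HadamardDecomposition (I.1, 4, I.2)) :=
  ERHard.of_sys (f := fun S => (matOf S, kOf S))
    (Poly.pair (poly_matOf Poly.id) (upoly_kOf Poly.id).toPoly) sat_iff_decomp

end Pool.Agent.NPC.R537HA
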