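import Pool.Agent.ER.ToSys
import Mathlib.Tactic.IntervalCases
import Mathlib.Tactic.LinearCombination
import Mathlib.Tactic.FieldSimp

/-!
# Frames describing a system of equations
-/

set_option autoImplicit false

namespace Pool.Agent.NPC.R537HA

open Pool.Agent.NPC Pool.Agent.NPC.ER

/-- Sparse vectors in four blocks: positions (block and index) with coefficients. -/
abbrev Vec : Type := List ((ℕ × ℕ) × ℤ)

/-- The coefficient of a sparse vector at a position. -/
noncomputable def cf (u : Vec) (s t : ℕ) : ℝ :=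
  (u.map fun p => if p.1 = (s, t) then (p.2 : ℝ) else 0).sum

/-- The coordinate of index `0` of the image. -/
noncomputable def w0 (X : ℕ → ℕ → ℝ) (u : Vec) (s : ℕ) : ℝ :=
  (u.map fun p => if p.1.1 = s then (p.2 : ℝ) * X s p.1.2 else 0).sum

/-- The four images of a row are multiples of one vector. -/
def RowOk (k : ℕ) (X D : ℕ → ℕ → ℝ) (u : Vec) (x y : ℕ → ℝ) : Prop :=
  ∀ s < 4, w0 X u s = x s * y 0 ∧ ∀ i, 1 ≤ i → i < k → D s i * cf u s i = x s * y i

/-- The four parts of a column are multiples of the pullbacks of one covector. -/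
def ColOk (k : ℕ) (X D : ℕ → ℕ → ℝ) (v : Vec) (x y : ℕ → ℝ) : Prop :=
  ∀ s < 4, cf v s 0 = x s * (X s 0 * y 0) ∧
    ∀ i, 1 ≤ i → i < k → cf v s i = x s * (X s i * y 0 + D s i * y i)

/-- Normalized frames. -/
structure Good (k : ℕ) (X D : ℕ → ℕ → ℝ) : Prop where
  /-- the first frame is the standard one -/
  x00 : X 0 0 = 1
  /-- the first frame is the standard one -/
  x0 : ∀ i, 1 ≤ i → i < k → X 0 i = 0
  /-- the first frame is the standard one -/
  d0 : ∀ i, 1 ≤ i → i < k → D 0 i = 1
  /-- the frames are nondegenerate -/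
  dne : ∀ s < 4, ∀ i, 1 ≤ i → i < k → D s i ≠ 0

/-! ### The rows and the columns -/

/-- The unit vector. -/
def unitV (s t : ℕ) : Vec := [((s, t), 1)]
/-- The sum of two unit vectors in one block. -/
def pairV (s t t' : ℕ) : Vec := [((s, t), 1), ((s, t'), 1)]
/-- The same unit vector in two blocks. -/
def twoV (s s' i : ℕ) : Vec := [((s, i), 1), ((s', i), 1)]
/-- The vector which normalizes an index. -/
def normV (i : ℕ) : Vec := [((0, 0), 1), ((0, i), 1), ((2, 0), 1), ((2, i), 1)]
/-- The vector which makes an inverse. -/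
def invV (i : ℕ) : Vec := [((1, i), 1), ((2, i), 1), ((2, 0), 1)]
/-- The vector which transfers a product. -/
def mixV (i l : ℕ) : Vec := [((2, i), 1), ((2, l), 1), ((3, i), 1), ((3, l), 1)]
/-- The vector for the value one. -/
def oneV (i : ℕ) : Vec := [((0, 0), 1), ((0, i), 1), ((1, i), 1)]
/-- The vector for a sum. -/
def addV (i j l : ℕ) : Vec :=
  [((0, 1), 1), ((1, 1), 1), ((0, i), 1), ((1, i), 1), ((0, j), 1), ((1, j), 1),
    ((0, l), -1), ((1, l), -1)]
/-- The column which forces the shape. -/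
def shapeV (i : ℕ) : Vec := [((0, i), 1), ((1, i), 1), ((2, i), 1), ((3, i), 1)]
/-- The column which equates two scales. -/
def eqV (s i j : ℕ) : Vec := [((0, i), 1), ((0, j), 1), ((s, i), 1), ((s, j), 1)]

/-- The rows of a variable. -/
def varR (i : ℕ) : List Vec := [twoV 0 2 i, normV i, twoV 1 3 i]
/-- The rows of a gate. -/
def gateR (l a b : ℕ) : List Vec := [twoV 1 2 a, twoV 0 3 a, twoV 0 2 b, invV b, mixV a l]

/-- The rows of a constraint. -/
def conR (ix : ℕ → ℕ) (g : ℕ) : ER.Con → List Vec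
  | ER.Con.one v => [oneV (ix v)]
  | ER.Con.add u v w => [addV (ix u) (ix v) (ix w)]
  | ER.Con.mul u v w => gateR (ix u) g (g + 1) ++ (gateR (ix u) (g + 2) (g + 3) ++
      [addV (ix v) (g + 3) (g + 1), addV (ix w) (g + 2) g])

/-- The columns of a constraint. -/
def conK (g : ℕ) : ER.Con → List Vec
  | ER.Con.mul _ _ _ => [eqV 2 g (g + 1), eqV 2 (g + 2) (g + 3)]
  | _ => []

/-! ### Soundness -/

theorem RowOk.cross0 {k : ℕ} {X D : ℕ → ℕ → ℝ} {u : Vec} {x y : ℕ → ℝ} (h : RowOk k X D u x y)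
    {s s' i : ℕ} (hs : s < 4) (hs' : s' < 4) (hi : 1 ≤ i) (hik : i < k) :
    w0 X u s * (D s' i * cf u s' i) = (D s i * cf u s i) * w0 X u s' := by
  rw [(h s hs).1, (h s' hs').1, (h s hs).2 i hi hik, (h s' hs').2 i hi hik]
  ring

section

variable {k : ℕ} {X D : ℕ → ℕ → ℝ} {x y : ℕ → ℝ}

theorem two_sound {s s' i : ℕ} (hs : s < 4) (hs' : s' < 4) (hss : s ≠ s') (hi : 1 ≤ i)
    (hik : i < k) (h : RowOk k X D (twoV s s' i) x y) : X s i * D s' i = D s i * X s' i := by
  have h1 := h.cross0 hs hs' hi hik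
  simpa [w0, cf, twoV, hss, hss.symm] using h1

theorem norm_sound (hG : Good k X D) {i : ℕ} (hi : 1 ≤ i)
    (hik : i < k) (h : RowOk k X D (normV i) x y) : D 2 i = X 2 0 + X 2 i := by
  have h1 := h.cross0 (s := 0) (s' := 2) (by norm_num) (by norm_num) hi hik
  have hi0 : (0 : ℕ) ≠ i := by omega
  simpa [w0, cf, normV, hi0, hG.x00, hG.x0 i hi hik, hG.d0 i hi hik] using h1

theorem inv_sound {i : ℕ} (hi : 1 ≤ i) (hik : i < k) (h : RowOk k X D (invV i) x y) :
    X 1 i * D 2 i = D 1 i * (X 2 i + X 2 0) := by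
  have h1 := h.cross0 (s := 1) (s' := 2) (by norm_num) (by norm_num) hi hik
  have hi0 : (0 : ℕ) ≠ i := by omega
  simpa [w0, cf, invV, hi0] using h1

theorem mix_sound {i l : ℕ} (hl : 1 ≤ l) (hlk : l < k) (hil : i ≠ l)
    (h : RowOk k X D (mixV i l) x y) :
    (X 2 i + X 2 l) * D 3 l = D 2 l * (X 3 i + X 3 l) := by
  have h1 := h.cross0 (s := 2) (s' := 3) (by norm_num) (by norm_num) hl hlk
  simpa [w0, cf, mixV, hil] using h1

theorem one_sound (hG : Good k X D) {i : ℕ} (hi : 1 ≤ i)
    (hik : i < k) (h : RowOk k X D (oneV i) x y) : D 1 i = X 1 i := by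
  have h1 := h.cross0 (s := 0) (s' := 1) (by norm_num) (by norm_num) hi hik
  have hi0 : (0 : ℕ) ≠ i := by omega
  simpa [w0, cf, oneV, hi0, hG.x00, hG.x0 i hi hik, hG.d0 i hi hik] using h1

theorem add_sound (hG : Good k X D) {i j l : ℕ} (hi : 2 ≤ i) (hik : i < k) (hj : 2 ≤ j)
    (hjk : j < k) (hl : 2 ≤ l) (hlk : l < k) (h1 : X 1 1 = 0)
    (h : RowOk k X D (addV i j l) x y) : X 1 i + X 1 j = X 1 l := by
  have h2 := h.cross0 (s := 0) (s' := 1) (by norm_num) (by norm_num) (le_refl 1) (by omega)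
  have hi0 : i ≠ 1 := by omega
  have hj0 : j ≠ 1 := by omega
  have hl0 : l ≠ 1 := by omega
  simp [w0, cf, addV, hi0, hj0, hl0, h1, hG.x0 1 (le_refl 1) (by omega),
    hG.x0 i (by omega) hik, hG.x0 j (by omega) hjk, hG.x0 l (by omega) hlk,
    hG.d0 1 (le_refl 1) (by omega)] at h2
  linarith

theorem eq_sound (hG : Good k X D) {s i j : ℕ} (hs : s < 4) (hs0 : s ≠ 0) (hi : 1 ≤ i)
    (hik : i < k) (hj : 1 ≤ j) (hjk : j < k) (hij : i ≠ j)
    (h : ColOk k X D (eqV s i j) x y) : D s i = D s j := by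
  have h0 := (h 0 (by norm_num)).1
  have h1 := (h 0 (by norm_num)).2 i hi hik
  have h2 := (h 0 (by norm_num)).2 j hj hjk
  have h3 := (h s hs).2 i hi hik
  have h4 := (h s hs).2 j hj hjk
  have hi0 : i ≠ 0 := by omega
  have hj0 : j ≠ 0 := by omega
  simp [cf, eqV, hi0, hj0, hij, hij.symm, hs0, hs0.symm, hG.x00, hG.x0 i hi hik,
    hG.x0 j hj hjk, hG.d0 i hi hik, hG.d0 j hj hjk] at h0 h1 h2 h3 h4
  have hx0 : x 0 ≠ 0 := by
    intro h5; rw [h5] at h1; simp at h1
  have hy0 : y 0 = 0 := by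
    rcases h0 with h0 | h0
    · exact absurd h0 hx0
    · exact h0
  have hyy : y i = y j := mul_left_cancel₀ hx0 (h1.symm.trans h2)
  rw [hy0, mul_zero, zero_add] at h3 h4
  have hxs : x s ≠ 0 := by
    intro h5; rw [h5] at h3; simp at h3
  have hyj : y j ≠ 0 := by
    intro h5; rw [h5] at h2; simp at h2
  have h6 : x s * (D s i * y j) = x s * (D s j * y j) := by
    rw [← hyy, ← h3, hyy, ← h4]
  exact mul_right_cancel₀ hyj (mul_left_cancel₀ hxs h6)

/-- What a gate computes. -/
theorem gate_sound (hG : Good k X D) {l a b : ℕ} (hl : 1 ≤ l) (hlk : l < k) (ha : 1 ≤ a)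
    (hak : a < k) (hb : 1 ≤ b) (hbk : b < k) (hal : a ≠ l)
    (hd : D 2 a = D 2 b)
    (hv : ∀ u ∈ varR l, ∃ x y, RowOk k X D u x y)
    (hg : ∀ u ∈ gateR l a b, ∃ x y, RowOk k X D u x y) :
    (X 1 l / D 1 l) * (X 1 b / D 1 b) = X 1 a / D 1 a := by
  obtain ⟨_, _, v1⟩ := hv (twoV 0 2 l) (by simp [varR])
  obtain ⟨_, _, v2⟩ := hv (normV l) (by simp [varR])
  obtain ⟨_, _, v3⟩ := hv (twoV 1 3 l) (by simp [varR])
  obtain ⟨_, _, g1⟩ := hg (twoV 1 2 a) (by simp [gateR])
  obtain ⟨_, _, g2⟩ := hg (twoV 0 3 a) (by simp [gateR])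
  obtain ⟨_, _, g3⟩ := hg (twoV 0 2 b) (by simp [gateR])
  obtain ⟨_, _, g4⟩ := hg (invV b) (by simp [gateR])
  obtain ⟨_, _, g5⟩ := hg (mixV a l) (by simp [gateR])
  have e1 := two_sound (by norm_num) (by norm_num) (by norm_num) hl hlk v1
  have e2 := norm_sound hG hl hlk v2
  have e3 := two_sound (by norm_num) (by norm_num) (by norm_num) hl hlk v3
  have f1 := two_sound (by norm_num) (by norm_num) (by norm_num) ha hak g1
  have f2 := two_sound (by norm_num) (by norm_num) (by norm_num) ha hak g2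
  have f3 := two_sound (by norm_num) (by norm_num) (by norm_num) hb hbk g3
  have f4 := inv_sound hb hbk g4
  have f5 := mix_sound hl hlk hal g5
  rw [hG.x0 l hl hlk, hG.d0 l hl hlk, zero_mul, one_mul] at e1
  rw [hG.x0 a ha hak, hG.d0 a ha hak, zero_mul, one_mul] at f2
  rw [hG.x0 b hb hbk, hG.d0 b hb hbk, zero_mul, one_mul] at f3
  rw [← e1, add_zero] at e2
  rw [← f3, zero_add] at f4
  rw [← e1, add_zero, ← f2, zero_add] at f5
  have d1l := hG.dne 1 (by norm_num) l hl hlk
  have d3l := hG.dne 3 (by norm_num) l hl hlk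
  have d1a := hG.dne 1 (by norm_num) a ha hak
  have d2a := hG.dne 2 (by norm_num) a ha hak
  have d1b := hG.dne 1 (by norm_num) b hb hbk
  have d2b := hG.dne 2 (by norm_num) b hb hbk
  have d2l := hG.dne 2 (by norm_num) l hl hlk
  -- slopes
  have s1 : X 1 l / D 1 l = X 3 l / D 3 l := by
    rw [div_eq_div_iff d1l d3l]; linarith
  have s2 : X 1 a / D 1 a = X 2 a / D 2 a := by
    rw [div_eq_div_iff d1a d2a]; linarith
  have s3 : X 1 b / D 1 b = D 2 l / D 2 b := by
    rw [div_eq_div_iff d1b d2b, e2]; linarith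
  have s4 : X 3 l / D 3 l = X 2 a / D 2 l := by
    rw [div_eq_div_iff d3l d2l]; linarith
  rw [s1, s2, s3, s4, hd]
  field_simp

end

/-! ### Completeness -/

section

variable {k : ℕ} {X D : ℕ → ℕ → ℝ}

theorem unit_row {s t : ℕ} (hs : s < 4) (ht : t < k) :
    RowOk k X D (unitV s t) (fun r => if r = s then 1 else 0)
      (fun j => if j = 0 then X s t else if j = t then D s t else 0) := by
  intro r hr
  constructor
  · by_cases h : r = s
    · subst h; simp [w0, unitV]
    · simp [w0, unitV, h, Ne.symm h]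
  · intro i hi hik
    have hi0 : i ≠ 0 := by omega
    by_cases h : r = s
    · subst h
      by_cases hit : i = t
      · subst hit; simp [cf, unitV, hi0]
      · simp [cf, unitV, hi0, hit, Ne.symm hit]
    · simp [cf, unitV, h, Ne.symm h]

theorem pair_row {s t t' : ℕ} (hs : s < 4) :
    RowOk k X D (pairV s t t') (fun r => if r = s then 1 else 0)
      (fun j => if j = 0 then X s t + X s t' else
        (if j = t then D s t else 0) + (if j = t' then D s t' else 0)) := by
  intro r hr
  constructor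
  · by_cases h : r = s
    · subst h; simp [w0, pairV]
    · simp [w0, pairV, h, Ne.symm h]
  · intro i hi hik
    have hi0 : i ≠ 0 := by omega
    by_cases h : r = s
    · subst h
      by_cases hit : i = t
      · subst hit
        by_cases hit' : i = t'
        · subst hit'; simp [cf, pairV, hi0]; ring
        · simp [cf, pairV, hi0, hit', Ne.symm hit']
      · by_cases hit' : i = t'
        · subst hit'; simp [cf, pairV, hi0, hit, Ne.symm hit]
        · simp [cf, pairV, hi0, hit', Ne.symm hit', hit, Ne.symm hit]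
    · simp [cf, pairV, h, Ne.symm h]

theorem two_row {s s' i : ℕ} (hss : s ≠ s') (c : ℝ) (hX : X s' i = c * X s i)
    (hD : D s' i = c * D s i) :
    RowOk k X D (twoV s s' i) (fun r => if r = s then 1 else if r = s' then c else 0)
      (fun j => if j = 0 then X s i else if j = i then D s i else 0) := by
  intro r hr
  constructor
  · by_cases h : r = s
    · subst h; simp [w0, twoV, hss, Ne.symm hss]
    · by_cases h' : r = s'
      · subst h'; simp [w0, twoV, hss, Ne.symm hss, hX]
      · simp [w0, twoV, h, Ne.symm h, h', Ne.symm h']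
  · intro j hj hjk
    have hj0 : j ≠ 0 := by omega
    by_cases h : r = s
    · subst h
      by_cases hji : j = i
      · subst hji; simp [cf, twoV, hss, Ne.symm hss, hj0]
      · simp [cf, twoV, hj0, hji, Ne.symm hji]
    · by_cases h' : r = s'
      · subst h'
        by_cases hji : j = i
        · subst hji; simp [cf, twoV, hss, Ne.symm hss, hj0, hD]
        · simp [cf, twoV, hj0, hji, Ne.symm hji]
      · simp [cf, twoV, h, Ne.symm h, h', Ne.symm h']

theorem norm_row {i : ℕ} (hi : 1 ≤ i) (h00 : X 0 0 = 1) (h20 : X 2 0 = 1) (h0 : X 0 i = 0)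
    (h2 : X 2 i = 0) (hd0 : D 0 i = 1) (hd2 : D 2 i = 1) :
    RowOk k X D (normV i) (fun r => if r = 0 then 1 else if r = 2 then 1 else 0)
      (fun j => if j = 0 then 1 else if j = i then 1 else 0) := by
  intro r hr
  have hi0 : i ≠ 0 := by omega
  constructor
  · interval_cases r <;> simp [w0, normV, h00, h20, h0, h2]
  · intro j hj hjk
    have hj0 : j ≠ 0 := by omega
    by_cases hji : j = i
    · subst hji
      interval_cases r <;> simp [cf, normV, hi0, Ne.symm hi0, hd0, hd2]
    · interval_cases r <;> simp [cf, normV, hj0, Ne.symm hj0, hji, Ne.symm hji]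

theorem one_row {i : ℕ} (hi : 1 ≤ i) (h00 : X 0 0 = 1) (h0 : X 0 i = 0)
    (h1 : X 1 i = 1) (hd0 : D 0 i = 1) (hd1 : D 1 i = 1) :
    RowOk k X D (oneV i) (fun r => if r = 0 then 1 else if r = 1 then 1 else 0)
      (fun j => if j = 0 then 1 else if j = i then 1 else 0) := by
  intro r hr
  have hi0 : i ≠ 0 := by omega
  constructor
  · interval_cases r <;> simp [w0, oneV, h00, h1, h0]
  · intro j hj hjk
    have hj0 : j ≠ 0 := by omega
    by_cases hji : j = i
    · subst hji
      interval_cases r <;> simp [cf, oneV, hi0, Ne.symm hi0, hd0, hd1]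
    · interval_cases r <;> simp [cf, oneV, hj0, Ne.symm hj0, hji, Ne.symm hji]

theorem inv_row {i : ℕ} (hi : 1 ≤ i) (h20 : X 2 0 = 1) (h1 : X 1 i ≠ 0)
    (h2 : X 2 i = 0) (hd1 : D 1 i = 1) (hd2 : D 2 i = 1 / X 1 i) :
    RowOk k X D (invV i) (fun r => if r = 1 then 1 else if r = 2 then 1 / X 1 i else 0)
      (fun j => if j = 0 then X 1 i else if j = i then 1 else 0) := by
  intro r hr
  have hi0 : i ≠ 0 := by omega
  constructor
  · interval_cases r <;> simp [w0, invV, h20, h1, h2]
  · intro j hj hjk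
    have hj0 : j ≠ 0 := by omega
    by_cases hji : j = i
    · subst hji
      interval_cases r <;> simp [cf, invV, hi0, Ne.symm hi0, hd1, hd2]
    · interval_cases r <;> simp [cf, invV, hj0, Ne.symm hj0, hji, Ne.symm hji]

theorem mix_row {i l : ℕ} (hil : i ≠ l) (hi : 1 ≤ i) (hl : 1 ≤ l) (h2l : X 2 l = 0)
    (h3i : X 3 i = 0) (hx : X 2 i = X 3 l) (hd2l : D 2 l = 1) (hd3l : D 3 l = 1)
    (hd : D 3 i = D 2 i) :
    RowOk k X D (mixV i l) (fun r => if r = 2 then 1 else if r = 3 then 1 else 0)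
      (fun j => if j = 0 then X 3 l else if j = i then D 2 i else if j = l then 1 else 0) := by
  intro r hr
  have hi0 : i ≠ 0 := by omega
  have hl0 : l ≠ 0 := by omega
  constructor
  · interval_cases r <;> simp [w0, mixV, h2l, h3i, hx]
  · intro j hj hjk
    have hj0 : j ≠ 0 := by omega
    by_cases hji : j = i
    · subst hji
      interval_cases r <;> simp [cf, mixV, hj0, hil, Ne.symm hil, hd]
    · by_cases hjl : j = l
      · subst hjl
        interval_cases r <;> simp [cf, mixV, hj0, hil, Ne.symm hil, hd2l, hd3l]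
      · interval_cases r <;> simp [cf, mixV, hj0, hji, Ne.symm hji, hjl, Ne.symm hjl]

theorem add_row {i j l : ℕ} (h01 : X 0 1 = 0) (h0i : X 0 i = 0) (h0j : X 0 j = 0)
    (h0l : X 0 l = 0) (h11 : X 1 1 = 0) (h1 : X 1 i + X 1 j = X 1 l)
    (hd : ∀ t, D 0 t = 1) (hd1 : ∀ t, D 1 t = 1) :
    RowOk k X D (addV i j l) (fun r => if r = 0 then 1 else if r = 1 then 1 else 0)
      (fun t => if t = 0 then 0 else cf (addV i j l) 0 t) := by
  intro r hr
  constructor
  · interval_cases r <;> simp [w0, addV, h01, h0i, h0j, h0l, h11]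
    linarith
  · intro t ht htk
    have ht0 : t ≠ 0 := by omega
    interval_cases r
    · simp [ht0, hd]
    · simp [ht0, hd1, cf, addV]
    · simp [ht0, cf, addV]
    · simp [ht0, cf, addV]

theorem unit_col {s t : ℕ} (hs : s < 4) (hX : X s 0 = 1)
    (hD : ∀ i, 1 ≤ i → i < k → D s i ≠ 0) (htk : t < k) :
    ColOk k X D (unitV s t) (fun r => if r = s then 1 else 0)
      (fun j => if t = 0 then (if j = 0 then 1 else - (X s j) / D s j)
        else if j = t then 1 / D s t else 0) := by
  intro r hr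
  by_cases h : r = s
  · subst h
    by_cases ht0 : t = 0
    · subst ht0
      refine ⟨by simp [cf, unitV, hX], ?_⟩
      intro i hi hik
      have hi0 : i ≠ 0 := by omega
      have := hD i hi hik
      simp only [cf, unitV, if_true, hi0, if_false]
      simp [Ne.symm hi0]
      field_simp
      ring
    · refine ⟨by simp [cf, unitV, ht0, Ne.symm ht0], ?_⟩
      intro i hi hik
      have hi0 : i ≠ 0 := by omega
      by_cases hit : i = t
      · subst hit
        have := hD i hi hik
        simp [cf, unitV, ht0, Ne.symm ht0, this]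
      · simp [cf, unitV, ht0, Ne.symm ht0, hit, Ne.symm hit]
  · refine ⟨by simp [cf, unitV, h, Ne.symm h], ?_⟩
    intro i hi hik
    simp [cf, unitV, h, Ne.symm h]

theorem shape_col {i : ℕ} (hi : 1 ≤ i) (hD : ∀ s < 4, D s i ≠ 0) :
    ColOk k X D (shapeV i) (fun r => 1 / D r i) (fun j => if j = i then 1 else 0) := by
  intro r hr
  have hi0 : i ≠ 0 := by omega
  have hr' := hD r hr
  constructor
  · interval_cases r <;> simp [cf, shapeV, hi0, Ne.symm hi0]
  · intro j hj hjk
    have hj0 : j ≠ 0 := by omega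
    by_cases hji : j = i
    · subst hji
      interval_cases r <;> simp [cf, shapeV, hi0, Ne.symm hi0, hr']
    · interval_cases r <;> simp [cf, shapeV, hi0, Ne.symm hi0, hji, Ne.symm hji]

theorem eq_col {s i j : ℕ} (hs0 : s ≠ 0) (hi : 1 ≤ i) (hj : 1 ≤ j) (hij : i ≠ j)
    (hdi : D 0 i = 1) (hdj : D 0 j = 1) (hds : D s i = D s j) (hne : D s i ≠ 0) :
    ColOk k X D (eqV s i j) (fun r => if r = 0 then 1 else if r = s then 1 / D s i else 0)
      (fun t => if t = i then 1 else if t = j then 1 else 0) := by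
  intro r hr
  have hi0 : i ≠ 0 := by omega
  have hj0 : j ≠ 0 := by omega
  constructor
  · by_cases h : r = 0
    · subst h; simp [cf, eqV, hi0, Ne.symm hi0, hj0, Ne.symm hj0]
    · by_cases h' : r = s
      · subst h'; simp [cf, eqV, hi0, Ne.symm hi0, hj0, Ne.symm hj0]
      · simp [cf, eqV, hi0, Ne.symm hi0, hj0, Ne.symm hj0]
  · intro t ht htk
    have ht0 : t ≠ 0 := by omega
    by_cases hti : t = i
    · subst hti
      by_cases h : r = 0
      · subst h; simp [cf, eqV, hij, Ne.symm hij, hs0, Ne.symm hs0, hi0, Ne.symm hi0, hj0,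
          Ne.symm hj0, hdi]
      · by_cases h' : r = s
        · subst h'; simp [cf, eqV, hij, Ne.symm hij, hs0, Ne.symm hs0, hi0, Ne.symm hi0, hj0,
            Ne.symm hj0, hne]
        · simp [cf, eqV, h, Ne.symm h, h', Ne.symm h']
    · by_cases htj : t = j
      · subst htj
        rw [hds] at hne ⊢
        by_cases h : r = 0
        · subst h; simp [cf, eqV, hij, Ne.symm hij, hs0, Ne.symm hs0, hi0, Ne.symm hi0, hj0,
            Ne.symm hj0, hdj]
        · by_cases h' : r = s
          · subst h'; simp [cf, eqV, hij, Ne.symm hij, hs0, Ne.symm hs0, hi0, Ne.symm hi0, hj0,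
              Ne.symm hj0, hne]
          · simp [cf, eqV, h, Ne.symm h, h', Ne.symm h']
      · simp [cf, eqV, hti, Ne.symm hti, htj, Ne.symm htj, hi0, hj0, Ne.symm hi0, Ne.symm hj0]

end

end Pool.Agent.NPC.R537HA
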